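import Pool.Agent.N571.TLF.Vas

/-!
# Pairs of members of two families
-/

set_option autoImplicit false

namespace Pool.Agent.N571.TLF

open Finset LaurentPolynomial Pool.Agent.H891R2.Jones Pool.Agent.W639.RB Pool.Agent.Y463.SK
  Pool.Agent.H832R3.VJ

theorem dia_closed {m k : ℕ} (O : Outer m) (w v : Fin k → List (Letter m)) (hO : O.close.IsClosed) 
    (n : Fin k → ℤ) (hv : ∀ j, O.up (permW (multiW w v n) j) = O.up j) : 
    (dia O (multiW w v n)).IsClosed := by
  have h := family_closed O w v (r := 0) (fun _ j => j.elim0) n (fun _ j => j.elim0) hO hv 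
    (fun j => j.elim0)
  have e : expo (fun (_ : Fin k) (j : Fin 0) => j.elim0) n (fun j => j.elim0) = n := by
    funext i
    unfold expo
    simp
  rwa [e] at h

/-- the bound for the number of the parameters with a given Jones polynomial -/
def bnd {k r : ℕ} (Λ : Fin k → Fin r → ℤ) (b : Fin k → ℕ) (A : Fin r → Finset ℤ) : ℕ := 
  ∑ j, (∏ i with Λ i j ≠ 0, (b i).choose (b i / 2)) * ∏ l ∈ univ.erase j, (A l).card

/-- two functions on boxes which take every value often or everywhere -/
theorem pair_grid {α β γ : Type*} [DecidableEq γ] (f : α → γ) (f' : β → γ) (X : Finset α) (X' : Finset β) (B B' : ℕ)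
    (h : ∀ F, (∀ q, f q = F) ∨ (X.filter (fun q => f q = F)).card ≤ B) 
    (h' : ∀ F, (∀ q, f' q = F) ∨ (X'.filter (fun q => f' q = F)).card ≤ B') : 
    (∀ q q', f q = f' q') ∨ ((X ×ˢ X').filter (fun z => f z.1 = f' z.2)).card ≤ 
      max (B * X'.card) (X.card * B') := by
  classical
  by_cases hall : ∀ q q', f q = f' q'
  · exact Or.inl hall
  right
  by_cases h1 : ∃ q' ∈ X', ∀ q, f q = f' q'
  · obtain ⟨p, -, hp⟩ := h1
    have h2 : ¬ ∀ q', f' q' = f' p := by
      intro hc
      apply hall
      intro q q'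
      exact (hp q).trans (hc q').symm
    have h3 := (h' (f' p)).resolve_left h2
    have h4 : (X ×ˢ X').filter (fun z => f z.1 = f' z.2) = 
        X ×ˢ (X'.filter (fun q' => f' q' = f' p)) := by
      ext z
      simp only [Finset.mem_filter, Finset.mem_product]
      constructor
      · rintro ⟨⟨hz1, hz2⟩, hz3⟩
        exact ⟨hz1, hz2, by rw [← hz3, hp]⟩
      · rintro ⟨hz1, hz2, hz3⟩
        exact ⟨⟨hz1, hz2⟩, by rw [hz3, hp]⟩
    rw [h4, Finset.card_product]
    exact (Nat.mul_le_mul_left _ h3).trans (le_max_right _ _)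
  · push Not at h1
    have h2 : ((X ×ˢ X').filter (fun z => f z.1 = f' z.2)).card ≤ B * X'.card := by
      have h3 := Finset.card_le_mul_card_image_of_maps_to (f := fun z : α × β => z.2) 
        (s := (X ×ˢ X').filter (fun z => f z.1 = f' z.2)) (t := X') (by
          intro z hz
          exact (Finset.mem_product.1 (Finset.mem_filter.1 hz).1).2) B (by
          intro b hb
          obtain ⟨q, hq⟩ := h1 b hb
          have h4 := (h (f' b)).resolve_left (fun hc => hq (hc q))
          refine le_trans (Finset.card_le_card_of_injOn (fun z => z.1) ?_ ?_) h4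
          · intro z hz
            simp only [Finset.coe_filter, Finset.mem_filter, Finset.mem_product, 
              Set.mem_ofPred_eq] at hz ⊢
            exact ⟨hz.1.1.1, by rw [hz.1.2, hz.2]⟩
          · intro z hz z' hz' hzz
            simp only [Finset.coe_filter, Finset.mem_filter, Finset.mem_product, 
              Set.mem_ofPred_eq] at hz hz'
            exact Prod.ext hzz (hz.2.trans hz'.2.symm))
      exact h3
    exact h2.trans (le_max_left _ _)

open Classical in
theorem pair_count {m k r m' k' r' : ℕ} (hm : 0 < m) (hm' : 0 < m') (O : Outer m) 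
    (w v : Fin k → List (Letter m)) (O' : Outer m') (w' v' : Fin k' → List (Letter m')) 
    (Λ : Fin k → Fin r → ℤ) (s : Fin k → ℤ) (hΛ : ∀ i j, IsPure (powW (w i) (Λ i j))) 
    (off b : Fin k → ℕ) (hb : ∀ i, 0 < b i) (hoff : ∀ i, off i + b i ≤ m) 
    (hw : ∀ i, ∀ x ∈ w i, off i ≤ x.2 ∧ (x.2 : ℕ) + 1 < off i + b i) 
    (Λ' : Fin k' → Fin r' → ℤ) (s' : Fin k' → ℤ) (hΛ' : ∀ i j, IsPure (powW (w' i) (Λ' i j))) 
    (off' b' : Fin k' → ℕ) (hb' : ∀ i, 0 < b' i) (hoff' : ∀ i, off' i + b' i ≤ m') 
    (hw' : ∀ i, ∀ x ∈ w' i, off' i ≤ x.2 ∧ (x.2 : ℕ) + 1 < off' i + b' i) :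
    (∀ q q', (dia O (multiW w v (expo Λ s q))).fPoly = (dia O' (multiW w' v' (expo Λ' s' q'))).fPoly) ∨
      ∀ (A : Fin r → Finset ℤ) (A' : Fin r' → Finset ℤ), 
        ((Fintype.piFinset A ×ˢ Fintype.piFinset A').filter (fun z => 
          (dia O (multiW w v (expo Λ s z.1))).fPoly = 
            (dia O' (multiW w' v' (expo Λ' s' z.2))).fPoly)).card ≤ 
          max (bnd Λ b A * ∏ l, (A' l).card) ((∏ l, (A l).card) * bnd Λ' b' A') := by
  by_cases hall : ∀ q q', (dia O (multiW w v (expo Λ s q))).fPoly = 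
      (dia O' (multiW w' v' (expo Λ' s' q'))).fPoly
  · exact Or.inl hall
  right
  intro A A'
  have h1 := (pair_grid (fun q => (dia O (multiW w v (expo Λ s q))).fPoly) 
    (fun q' => (dia O' (multiW w' v' (expo Λ' s' q'))).fPoly) (Fintype.piFinset A) 
    (Fintype.piFinset A') (bnd Λ b A) (bnd Λ' b' A') 
    (fun F => (family hm O w v Λ s hΛ off b hb hoff hw F).imp id fun h => h A) 
    (fun F => (family hm' O' w' v' Λ' s' hΛ' off' b' hb' hoff' hw' F).imp id 
      fun h => h A')).resolve_left hall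
  rwa [Fintype.card_piFinset, Fintype.card_piFinset] at h1

end Pool.Agent.N571.TLF
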