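import Pool.Agent.N571.TLF.Pairs

/-!
# Uniform order of contact
-/

set_option autoImplicit false

namespace Pool.Agent.N571.TLF

open Finset LaurentPolynomial Pool.Agent.H891R2.Jones Pool.Agent.W639.RB Pool.Agent.Y463.SK
  Pool.Agent.H832R3.VJ

theorem moment_eq_of_dvd {j M : ℕ} (hj : j < M) {F G : ℤ[T;T⁻¹]} (h : (T 1 - 1 : ℤ[T;T⁻¹]) ^ M ∣ F - G) : 
    moment j F = moment j G := by
  obtain ⟨H, hH⟩ := h
  have h1 := V7.moment_pow_mul M H j hj
  rw [← hH, moment_sub] at h1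
  exact sub_eq_zero.1 h1

theorem contact {m k m' k' : ℕ} (hm : 0 < m) (hm' : 0 < m') (O : Outer m) 
    (w v : Fin k → List (Letter m)) (O' : Outer m') (w' v' : Fin k' → List (Letter m')) : 
    ∃ M : ℕ, ∀ (n : Fin k → ℤ) (n' : Fin k' → ℤ), 
      (T 1 - 1 : ℤ[T;T⁻¹]) ^ M ∣ 
        (dia O (multiW w v n)).fPoly - (dia O' (multiW w' v' n')).fPoly → 
      (dia O (multiW w v n)).fPoly = (dia O' (multiW w' v' n')).fPoly := by
  obtain ⟨d, hd⟩ := uniform hm hm' O w v O' w' v'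
  exact ⟨d + 1, fun n n' h => hd n n' fun j hj => moment_eq_of_dvd (by omega) h⟩

theorem contact_one {m k : ℕ} (hm : 0 < m) (O : Outer m) (w v : Fin k → List (Letter m)) 
    (F : ℤ[T;T⁻¹]) : ∃ M : ℕ, ∀ (n : Fin k → ℤ), 
      (T 1 - 1 : ℤ[T;T⁻¹]) ^ M ∣ (dia O (multiW w v n)).fPoly - F → 
      (dia O (multiW w v n)).fPoly = F := by
  have h1 := fun (s : Fin k → Fin m.factorial) => 
    (tame_class hm O w v (fun i => ((s i : ℕ) : ℤ)) _ (fun i => pure_factorial (w i))).order 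
      (k' := 0) (f' := fun _ => F) (fun i => i.elim0)
  choose d hd using h1
  refine ⟨univ.sup d + 1, fun n hdvd => ?_⟩
  have hf : ∀ m : ℕ, (0 : ℤ) < (m.factorial : ℕ) := fun m => by exact_mod_cast m.factorial_pos
  set s : Fin k → Fin m.factorial := fun i => 
    ⟨(n i % (m.factorial : ℕ)).toNat, by
      have h2 := Int.emod_nonneg (n i) (hf m).ne'
      have h3 := Int.emod_lt_of_pos (n i) (hf m)
      omega⟩ with hs
  have e1 : n = fun i => ((m.factorial : ℕ) : ℤ) * (n i / (m.factorial : ℕ)) + ((s i : ℕ) : ℤ) := by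
    funext i
    simp only [hs]
    rw [Int.toNat_of_nonneg (Int.emod_nonneg (n i) (hf m).ne'), Int.mul_ediv_add_emod]
  have h2 := hd s (fun i => n i / (m.factorial : ℕ)) 0 (by
    intro j hj
    rw [← e1]
    refine moment_eq_of_dvd ?_ hdvd
    exact Nat.lt_succ_of_le (hj.trans (Finset.le_sup (Finset.mem_univ s))))
  rw [← e1] at h2
  exact h2

end Pool.Agent.N571.TLF
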