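import Pool.Agent.N571.TLF.Words

/-!
# The span of the sorted products is a left ideal modulo the next ideal of the filtration
-/

set_option autoImplicit false

namespace Pool.Agent.N571.TLF

open Pool.Agent.Y463.SK

section
variable {R B : Type*} [CommRing R] [Ring B] [Algebra R B] {m : ℕ} {d : R} {e : ℕ → B}

theorem act (h : IsTLr m d e) (k : ℕ) : ∀ n j, j + n = k → ∀ y ∈ WW R m e k n j, ∀ i, 2*j ≤ i →
    i + 1 < m → e i * y ∈ WW R m e k n j := by
  intro n
  induction n with
  | zero =>
    intro j hjk y hy i hj hi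
    obtain rfl : j = k := by omega
    obtain ⟨y1, h1, y2, h2, rfl⟩ := Submodule.mem_sup.1 hy
    rw [mul_add]
    refine Submodule.add_mem _ ?_ (Submodule.mem_sup_right (NN_left h h2 hj hi))
    refine Submodule.mem_sup_right ?_
    induction h1 using Submodule.span_induction with
    | mem x hx =>
      cases hx
      rw [mul_one, mem_NN]
      obtain ⟨l, rfl⟩ : ∃ l, i = 2*j + l := ⟨i - 2*j, by omega⟩
      exact uu_mul_mem h j l (by omega)
    | zero => rw [mul_zero]; exact Submodule.zero_mem _
    | add a b _ _ ha hb => 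
      rw [mul_add]
      exact Submodule.add_mem _ (ha (Submodule.add_mem_sup (by assumption) h2)) 
        (hb (Submodule.add_mem_sup (by assumption) h2))
    | smul r a _ ha => 
      rw [mul_smul_comm]
      exact Submodule.smul_mem _ _ (ha (Submodule.add_mem_sup (by assumption) h2))
  | succ n ih =>
    intro j hjk y hy i hj hi
    have ih' := ih (j+1) (by omega)
    -- descending products act, too
    have hdp : ∀ l b, 2*(j+1) + l ≤ b + 1 → b + 1 < m → ∀ z ∈ WW R m e k n (j+1), 
        dp e b l * z ∈ WW R m e k n (j+1) := by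
      intro l
      induction l with
      | zero => intro b _ _ z hz; rw [dp, one_mul]; exact hz
      | succ l ihl =>
        intro b hb hbm z hz
        rw [dp, mul_assoc]
        exact ihl b (by omega) hbm _ (ih' z hz _ (by omega) (by omega))
    obtain ⟨y1, h1, y2, h2, rfl⟩ := Submodule.mem_sup.1 hy
    rw [mul_add]
    refine Submodule.add_mem _ ?_ (Submodule.mem_sup_right (NN_left h h2 hj hi))
    clear hy h2
    induction h1 using Submodule.span_induction with
    | mem x hx =>
      have hx' : x ∈ Submodule.span R {y | In m e (n+1) j 0 y} := Submodule.subset_span hx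
      have hx0 := hx
      cases hx with
      | cons n j c b x hc hj' hb hx =>
      have hxW : x ∈ WW R m e k n (j+1) := 
        Submodule.mem_sup_left (Submodule.subset_span (hx.mono (Nat.zero_le _)))
      rcases Nat.lt_or_ge i b with h3 | h3
      · -- i < b
        have e1 : b + 1 - 2*j = (b - 1 - i) + (i + 2 - 2*j) := by omega
        have e2 : b - (b - 1 - i) = i + 1 := by omega
        have e3 : i + 2 - 2*j = (i + 1 - 2*j) + 1 := by omega
        have hc1 : Commute (e i) (dp e b (b - 1 - i)) := 
          comm_dp _ (by omega) (fun l h4 h5 => h.far i l (by omega) (by omega))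
        have hkey : e i * dp e (i+1) (i + 2 - 2*j) = dp e i (i + 1 - 2*j) := by
          rw [e3, dp_head, Nat.add_sub_cancel]
          obtain ⟨l, hl⟩ : ∃ l, i + 1 - 2*j = l + 1 := ⟨i - 2*j, by omega⟩
          rw [hl, dp_head, ← mul_assoc, ← mul_assoc, h.up i (by omega)]
        have hc2 : Commute (dp e b (b - 1 - i)) (dp e i (i + 1 - 2*j)) := by
          refine comm_dp _ (by omega) (fun l h4 h5 => ?_)
          refine (comm_dp (x := e l) _ (by omega) (fun l' h6 h7 => ?_)).symm
          exact h.far l l' (by omega) (by omega)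
        have e4 : e i * (dp e b (b + 1 - 2*j) * x) = 
            dp e i (i + 1 - 2*j) * (dp e b (b - 1 - i) * x) := by
          rw [e1, dp_add, e2]
          calc e i * (dp e b (b - 1 - i) * dp e (i+1) (i + 2 - 2*j) * x) 
              = (e i * dp e b (b - 1 - i)) * dp e (i+1) (i + 2 - 2*j) * x := by simp only [mul_assoc]
            _ = dp e b (b - 1 - i) * (e i * dp e (i+1) (i + 2 - 2*j)) * x := by 
              rw [hc1.eq]; simp only [mul_assoc]
            _ = (dp e b (b - 1 - i) * dp e i (i + 1 - 2*j)) * x := by rw [hkey]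
            _ = _ := by rw [hc2.eq, mul_assoc]
        rw [e4]
        exact WW_dp h (hdp _ b (by omega) hb x hxW) hj hi
      · rcases Nat.eq_or_lt_of_le h3 with h4 | h4
        · -- i = b
          subst h4
          have e1 : b + 1 - 2*j = (b - 2*j) + 1 := by omega
          have e4 : e b * (dp e b (b + 1 - 2*j) * x) = d • (dp e b (b + 1 - 2*j) * x) := by
            rw [e1, dp_head, mul_assoc, ← mul_assoc (e b) (e b), h.sq b hb, smul_mul_assoc]
          rw [e4]
          exact Submodule.smul_mem _ _ (Submodule.mem_sup_left hx')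
        · rcases Nat.eq_or_lt_of_le h4 with h5 | h5
          · -- i = b + 1
            have e1 : e i * (dp e b (b + 1 - 2*j) * x) = dp e i (i + 1 - 2*j) * x := by
              have e2 : i + 1 - 2*j = (b + 1 - 2*j) + 1 := by omega
              have e3 : i - 1 = b := by omega
              rw [e2, dp_head, e3, mul_assoc]
            rw [e1]
            exact WW_dp h hxW hj hi
          · have hc1 : Commute (e i) (dp e b (b + 1 - 2*j)) := 
              comm_dp _ (by omega) (fun l h6 h7 => (h.far l i hi (by omega)).symm)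
            have e1 : e i * (dp e b (b + 1 - 2*j) * x) = dp e b (b + 1 - 2*j) * (e i * x) := by
              rw [← mul_assoc, hc1.eq, mul_assoc]
            rw [e1]
            exact WW_dp h (ih' x hxW i (by omega) hi) hj' hb
    | zero => rw [mul_zero]; exact Submodule.zero_mem _
    | add a b _ _ ha hb => rw [mul_add]; exact Submodule.add_mem _ ha hb
    | smul r a _ ha => rw [mul_smul_comm]; exact Submodule.smul_mem _ _ ha

variable (R) in
/-- the span of the sorted products with `k` factors, modulo the next ideal -/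
def VV (m : ℕ) (e : ℕ → B) (k : ℕ) : Submodule R B :=
  Submodule.span R {y | In m e k 0 0 y} ⊔ JJ R e (k+1)

theorem VV_eq (k : ℕ) : VV R m e k = WW R m e k k 0 := by
  unfold VV WW
  congr 1
  ext y
  rw [mem_NN, uu, one_mul]

theorem VV_left (h : IsTLr m d e) (h0 : ∀ i, m ≤ i + 1 → e i = 0) (k : ℕ) {b : B}
    (hb : b ∈ Algebra.adjoin R (Set.range e)) : ∀ x ∈ VV R m e k, b * x ∈ VV R m e k := by
  induction hb using Algebra.adjoin_induction with
  | mem b hb =>
    obtain ⟨i, rfl⟩ := hb
    intro x hx
    rcases Nat.lt_or_ge (i + 1) m with h1 | h1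
    · rw [VV_eq] at hx ⊢
      exact act h k k 0 (by omega) x hx i (by omega) h1
    · rw [h0 i h1, zero_mul]; exact Submodule.zero_mem _
  | algebraMap r => 
    intro x hx
    rw [← Algebra.smul_def]
    exact Submodule.smul_mem _ _ hx
  | add b c _ _ hb hc =>
    intro x hx
    rw [add_mul]
    exact Submodule.add_mem _ (hb x hx) (hc x hx)
  | mul b c _ _ hb hc =>
    intro x hx
    rw [mul_assoc]
    exact hb _ (hc x hx)

theorem uu_In (h : IsTLr m d e) : ∀ n j, 2 * (j + n) ≤ m → ∃ x, In m e n j (2*j) x ∧ uu e (j + n) = uu e j * x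
  | 0, j, _ => ⟨1, In.nil _ _, by simp⟩
  | (n+1), j, hm => by
    obtain ⟨x, hx, h1⟩ := uu_In h n (j+1) (by omega)
    refine ⟨dp e (2*j) (2*j + 1 - 2*j) * x, In.cons _ _ _ _ _ le_rfl le_rfl (by omega) 
      (hx.mono (by omega)), ?_⟩
    have e1 : 2*j + 1 - 2*j = 1 := by omega
    rw [e1, dp_one, ← mul_assoc, ← uu, ← h1]
    congr 1
    omega

theorem uu_VV (h : IsTLr m d e) {k : ℕ} (hk : 2 * k ≤ m) : uu e k ∈ VV R m e k := by
  obtain ⟨x, hx, h1⟩ := uu_In h k 0 (by omega)
  rw [Nat.zero_add, uu, one_mul] at h1
  rw [h1]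
  exact Submodule.mem_sup_left (Submodule.subset_span (hx.mono (Nat.zero_le _)))

end

end Pool.Agent.N571.TLF
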