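import Mathlib

/-!
# Monic polynomials with divisible coefficients which annihilate operators
-/

set_option autoImplicit false

namespace Pool.Agent.N571.TLF

open Polynomial

section
variable {R V : Type*} [CommRing R] [AddCommGroup V] [Module R V]

/-- a monic polynomial of degree at most `n` whose coefficient of `X^j` is divisible by
`π ^ (natDegree - j)` -/
def PD (π : R) (n : ℕ) (p : R[X]) : Prop :=
  p.Monic ∧ p.natDegree ≤ n ∧ ∀ j, π ^ (p.natDegree - j) ∣ p.coeff j

theorem aeval_restrict (g : Module.End R V) (K : Submodule R V) (hg : ∀ x ∈ K, g x ∈ K) (p : R[X])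
    (x : K) : ((aeval (g.restrict hg : Module.End R K) p x : K) : V) = aeval g p x := by
  induction p using Polynomial.induction_on' with
  | add p q hp hq => simp only [map_add, LinearMap.add_apply, Submodule.coe_add, hp, hq]
  | monomial n a =>
    rw [aeval_monomial, aeval_monomial, Module.End.mul_apply, Module.End.mul_apply,
      Module.algebraMap_end_apply, Module.algebraMap_end_apply, Submodule.coe_smul]
    congr 1
    induction n generalizing x with
    | zero => rfl
    | succ n ih =>
      rw [pow_succ, pow_succ, Module.End.mul_apply, Module.End.mul_apply, ih]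
      rfl

theorem exists_PD {π : R} (g : Module.End R V) (l : List V)
    (hg : ∀ x ∈ Submodule.span R {x | x ∈ l}, ∃ y ∈ Submodule.span R {x | x ∈ l}, g x = π • y) :
    ∃ p, PD π l.length p ∧ ∀ x ∈ Submodule.span R {x | x ∈ l}, aeval g p x = 0 := by
  classical
  set K : Submodule R V := Submodule.span R {x | x ∈ l} with hK
  have hfin : ({x | x ∈ l} : Set V).Finite := List.finite_toSet _
  have hfg : K.FG := Submodule.fg_span hfin
  have : Module.Finite R K := Module.Finite.iff_fg.2 hfg
  have hgK : ∀ x ∈ K, g x ∈ K := by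
    intro x hx
    obtain ⟨y, hy, h1⟩ := hg x hx
    rw [h1]; exact Submodule.smul_mem _ _ hy
  obtain ⟨p, hp1, hp2, hp3, hp4⟩ := 
    LinearMap.exists_monic_and_natDegree_eq_and_coeff_mem_pow_and_aeval_eq_zero R 
    (g.restrict hgK : Module.End R K) (Ideal.span {π}) (by
      rintro _ ⟨x, rfl⟩
      obtain ⟨y, hy, h1⟩ := hg x x.2
      have : (g.restrict hgK) x = π • (⟨y, hy⟩ : K) := Subtype.ext h1
      rw [this]
      exact Submodule.smul_mem_smul (Ideal.subset_span rfl) Submodule.mem_top)
  refine ⟨p, ⟨hp1, ?_, ?_⟩, ?_⟩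
  · rw [hp2]
    have h1 : (⊤ : Submodule R K).spanFinrank = K.spanFinrank := by
      have h2 := Submodule.spanFinrank_map_eq_of_injective K.subtype (p := (⊤ : Submodule R K))
        K.injective_subtype
      rw [Submodule.map_subtype_top] at h2
      exact h2.symm
    rw [h1]
    refine (Submodule.spanFinrank_span_le_ncard_of_finite hfin).trans ?_
    have h2 : ({x | x ∈ l} : Set V) = (l.toFinset : Set V) := by ext x; simp
    rw [h2, Set.ncard_coe_finset]
    exact List.toFinset_card_le _
  · intro j
    have := hp3 j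
    rw [Ideal.span_singleton_pow, Ideal.mem_span_singleton] at this
    exact this
  · intro x hx
    have h1 := aeval_restrict g K hgK p ⟨x, hx⟩
    rw [hp4] at h1
    exact h1.symm

theorem PD.mul {π : R} {n n' : ℕ} {p q : R[X]} (hp : PD π n p) (hq : PD π n' q) :
    PD π (n + n') (p * q) := by
  obtain ⟨a1, a2, a3⟩ := hp
  obtain ⟨b1, b2, b3⟩ := hq
  have hd : (p * q).natDegree = p.natDegree + q.natDegree := a1.natDegree_mul b1
  refine ⟨a1.mul b1, by rw [hd]; omega, fun j => ?_⟩
  rw [coeff_mul]
  refine Finset.dvd_sum fun x hx => ?_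
  rw [Finset.HasAntidiagonal.mem_antidiagonal] at hx
  refine dvd_trans ?_ (mul_dvd_mul (a3 x.1) (b3 x.2))
  rw [← pow_add]
  exact pow_dvd_pow _ (by omega)

theorem PD.one {π : R} : PD π 0 (1 : R[X]) := by
  refine ⟨monic_one, by simp, fun j => ?_⟩
  simp

theorem PD.mono {π : R} {n n' : ℕ} {p : R[X]} (hp : PD π n p) (h : n ≤ n') : PD π n' p :=
  ⟨hp.1, hp.2.1.trans h, hp.2.2⟩

end

end Pool.Agent.N571.TLF
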