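import Pool.Agent.N571.TLF.Fam

/-!
# The diagrams of a family are closed
-/

set_option autoImplicit false

namespace Pool.Agent.N571.TLF

open Finset LaurentPolynomial Pool.Agent.H891R2.Jones Pool.Agent.W639.RB Pool.Agent.Y463.SK

theorem permL_expo {m k r : ℕ} (w v : Fin k → List (Letter m)) (Λ : Fin k → Fin r → ℤ) (s : Fin k → ℤ) 
    (hΛ : ∀ i j, IsPure (powW (w i) (Λ i j))) (q : Fin r → ℤ) : 
    permL (toN (multiW w v (expo Λ s q))) = permL (toN (multiW w v s)) := by
  have hpure : ∀ i j, (permL (toN (w i))) ^ (Λ i j) = 1 := by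
    intro i j
    rw [← permL_zpow, ← toN_pow]
    exact permL_of_pure (hΛ i j)
  rw [toN_multi, toN_multi, permL_flatten, permL_flatten, List.map_ofFn, List.map_ofFn]
  congr 2
  funext i
  simp only [Function.comp_apply]
  rw [permL_append, permL_append, permL_zpow, permL_zpow, zpow_expo _ _ _ _ _ (hpure i)]

theorem permW_expo {m k r : ℕ} (w v : Fin k → List (Letter m)) (Λ : Fin k → Fin r → ℤ) (s : Fin k → ℤ) 
    (hΛ : ∀ i j, IsPure (powW (w i) (Λ i j))) (q : Fin r → ℤ) : 
    permW (multiW w v (expo Λ s q)) = permW (multiW w v s) := by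
  have h1 := permL_expo w v Λ s hΛ q
  ext j
  have h2 := (permL_toN (multiW w v (expo Λ s q))).1 j
  have h3 := (permL_toN (multiW w v s)).1 j
  rw [h1] at h2
  exact h2.symm.trans h3

theorem family_closed {m k r : ℕ} (O : Outer m) (w v : Fin k → List (Letter m)) 
    (Λ : Fin k → Fin r → ℤ) (s : Fin k → ℤ) (hΛ : ∀ i j, IsPure (powW (w i) (Λ i j))) 
    (hO : O.close.IsClosed) 
    (hv : ∀ j, O.up (permW (multiW w v s) j) = O.up j) (q : Fin r → ℤ) :
    (dia O (multiW w v (expo Λ s q))).IsClosed := by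
  show (draw O (toN (multiW w v (expo Λ s q)))).close.IsClosed
  rw [closed_iff] at hO ⊢
  have h1 := permL_expo w v Λ s hΛ q
  have h2 := (draw_writhe (toN (multiW w v (expo Λ s q))) O (toN_lt _)).2
  have h3 : (draw O (toN (multiW w v (expo Λ s q)))).up = O.up := by
    apply pat_inj
    rw [h2, h1]
    funext i
    rw [Function.comp_apply]
    rcases Nat.lt_or_ge i m with hi | hi
    · have h4 := (permL_toN (multiW w v s)).1 ⟨i, hi⟩
      simp only at h4
      rw [h4]
      unfold pat
      rw [dif_pos (Fin.is_lt _), dif_pos hi, Fin.eta, hv]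
    · rw [(permL_toN (multiW w v s)).2 i hi]
  rw [h3]
  exact good_draw _ _ O hO

end Pool.Agent.N571.TLF
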