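import Pool.Agent.N571.TLF.Words

/-!
# The number of sorted products
-/

set_option autoImplicit false

namespace Pool.Agent.N571.TLF

open Pool.Agent.Y463.SK Finset

section
variable {B : Type*} [Ring B] {m : ℕ} {e : ℕ → B}

/-- the list of the sorted products with the first index at least `p`; `r = m - 1 - p` -/
def Lst (e : ℕ → B) : ℕ → ℕ → ℕ → ℕ → List B
  | 0, _, _, 0 => [1]
  | 0, _, _, (_+1) => []
  | (r+1), p, j, 0 => Lst e r (p+1) j 0
  | (r+1), p, j, (n+1) => Lst e r (p+1) j (n+1) ++ 
      if 2*j ≤ p then (Lst e r (p+1) (j+1) n).map (fun x => dp e p (p+1-2*j) * x) else []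

theorem one_mem_Lst (e : ℕ → B) : ∀ r p j, (1 : B) ∈ Lst e r p j 0
  | 0, _, _ => by simp [Lst]
  | (r+1), p, j => by rw [Lst]; exact one_mem_Lst e r (p+1) j

theorem mem_Lst : ∀ (r p j n : ℕ) (x : B), p + r + 1 = m → In m e n j p x → x ∈ Lst e r p j n := by
  intro r
  induction r with
  | zero =>
    intro p j n x hp hx
    cases hx with
    | nil => simp [Lst]
    | cons n j c b x h1 h2 h3 h4 => omega
  | succ r ih =>
    intro p j n x hp hx
    cases hx with
    | nil => exact one_mem_Lst _ _ _ _
    | cons n j c b x h1 h2 h3 h4 => 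
      rw [Lst, List.mem_append]
      rcases Nat.eq_or_lt_of_le h1 with h5 | h5
      · right
        subst h5
        rw [if_pos h2]
        exact List.mem_map.2 ⟨x, ih (p+1) (j+1) n x (by omega) h4, rfl⟩
      · left
        exact ih (p+1) j (n+1) _ (by omega) (In.cons _ _ _ _ _ h5 h2 h3 h4)

theorem Lst_zero (e : ℕ → B) : ∀ r p j, (Lst e r p j 0).length = 1
  | 0, _, _ => rfl
  | (r+1), p, j => by rw [Lst]; exact Lst_zero e r (p+1) j

/-- the number of paths with `r` steps `±1` which start at the height `h` and stay nonnegative -/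
def M : ℕ → ℕ → ℕ
  | 0, _ => 1
  | (r+1), 0 => M r 1
  | (r+1), (h+1) => M r (h+2) + M r h

theorem sum_Lst (e : ℕ → B) : ∀ (r p j N : ℕ), 2*j ≤ p + 1 → 
    ∑ n ∈ range N, (Lst e r p j n).length ≤ M r (p + 1 - 2*j)
  | 0, p, j, N, _ => by
    rcases N with _ | N
    · simp
    · rw [Finset.sum_range_succ']
      simp [Lst, M]
  | (r+1), p, j, N, hj => by
    rcases N with _ | N
    · simp
    have h1 := sum_Lst e r (p+1) j (N+1) (by omega)
    rw [Finset.sum_range_succ'] at h1 ⊢
    rw [Lst]
    simp only [Lst, List.length_append]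
    rw [Finset.sum_add_distrib]
    obtain ⟨h, hh⟩ : ∃ h, h = p + 1 - 2*j := ⟨_, rfl⟩
    rw [← hh]
    have e1 : p + 1 + 1 - 2*j = h + 1 := by omega
    rw [e1] at h1
    rcases h with _ | h
    · have : ¬ 2 * j ≤ p := by omega
      simp only [if_neg this, List.length_nil, Finset.sum_const_zero, add_zero]
      rw [M]
      exact h1
    · have h2 : 2 * j ≤ p := by omega
      simp only [if_pos h2, List.length_map]
      have h3 := sum_Lst e r (p+1) (j+1) N (by omega)
      have e2 : p + 1 + 1 - 2*(j+1) = h := by omega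
      rw [e2] at h3
      rw [M]
      have e3 : h + 1 + 1 = h + 2 := rfl
      rw [e3] at h1
      omega

end

theorem M_eq : ∀ r h, M r h = ∑ i ∈ range (r+1), if r ≤ 2*i + h ∧ 2*i ≤ r + h + 1 then r.choose i else 0 := by
  intro r
  induction r with
  | zero => intro h; simp [M]
  | succ r ih =>
    intro h
    -- Pascal
    have pas : ∀ P : ℕ → Prop, ∀ [DecidablePred P], ∑ i ∈ range (r+1+1), (if P i then (r+1).choose i else 0) = 
        ∑ i ∈ range (r+1), ((if P i then r.choose i else 0) + (if P (i+1) then r.choose i else 0)) := by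
      intro P _
      rw [Finset.sum_add_distrib, Finset.sum_range_succ' _ (r+1)]
      have h1 : ∀ i, (if P (i+1) then (r+1).choose (i+1) else 0) = 
          (if P (i+1) then r.choose i else 0) + (if P (i+1) then r.choose (i+1) else 0) := by
        intro i
        split_ifs
        · rw [Nat.choose_succ_succ]
        · rfl
      simp only [h1]
      rw [Finset.sum_add_distrib]
      have h2 : ∑ i ∈ range (r+1), (if P i then r.choose i else 0) = 
          ∑ i ∈ range (r+1), (if P (i+1) then r.choose (i+1) else 0) + (if P 0 then r.choose 0 else 0) := by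
        rw [← Finset.sum_range_succ' (fun i => if P i then r.choose i else 0) (r+1), 
          Finset.sum_range_succ (fun i => if P i then r.choose i else 0) (r+1), Nat.choose_succ_self]
        simp
      rw [h2, Nat.choose_zero_right, Nat.choose_zero_right]
      omega
    rw [pas]
    rcases h with _ | h
    · rw [M, ih]
      refine Finset.sum_congr rfl fun i _ => ?_
      split_ifs <;> omega
    · rw [M, ih, ih, ← Finset.sum_add_distrib]
      refine Finset.sum_congr rfl fun i _ => ?_
      split_ifs <;> omega

theorem M_zero (m : ℕ) : M m 0 = m.choose (m / 2) := by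
  rw [M_eq]
  have h1 : ∀ i ∈ range (m+1), (if m ≤ 2*i + 0 ∧ 2*i ≤ m + 0 + 1 then m.choose i else 0) = 
      if i = (m+1)/2 then m.choose i else 0 := by
    intro i _
    congr 1
    rw [eq_iff_iff]
    omega
  rw [Finset.sum_congr rfl h1, Finset.sum_ite_eq' , if_pos (by rw [Finset.mem_range]; omega)]
  have h2 : m / 2 = m - (m+1)/2 := by omega
  rw [h2, Nat.choose_symm (by omega)]

end Pool.Agent.N571.TLF
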