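import Pool.Agent.N571.TLF.Main

/-!
# The families
-/

set_option autoImplicit false

namespace Pool.Agent.N571.TLF

open Finset LaurentPolynomial Pool.Agent.H891R2.Jones Pool.Agent.W639.RB Pool.Agent.Y463.SK

/-- the exponents `n_i = ∑_j Λ_{ij} q_j + s_i` -/
def expo {k r : ℕ} (Λ : Fin k → Fin r → ℤ) (s : Fin k → ℤ) (q : Fin r → ℤ) (i : Fin k) : ℤ :=
  ∑ j, Λ i j * q j + s i

/-- the word with the powers of the words `W i` -/
def word {k : ℕ} (W V : Fin k → List (Bool × ℕ)) (t : Fin k → ℤ) : List (Bool × ℕ) :=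
  (List.ofFn (fun i => powL (W i) (t i) ++ V i)).flatten

theorem permL_flat {k : ℕ} (g : Fin k → List (Bool × ℕ)) (g' : Fin k → List (Bool × ℕ)) 
    (h : ∀ i, permL (g i) = permL (g' i)) (n : ℕ) : 
    permL ((List.ofFn g).take n).flatten = permL ((List.ofFn g').take n).flatten := by
  rw [permL_flatten, permL_flatten, List.map_take, List.map_take, List.map_ofFn, List.map_ofFn]
  congr 3
  funext i
  exact h i

theorem flat_lt {m k : ℕ} {g : Fin k → List (Bool × ℕ)} (h : ∀ i, ∀ x ∈ g i, x.2 + 1 < m) 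
    {l : List (List (Bool × ℕ))} (hl : ∀ y ∈ l, y ∈ List.ofFn g) : ∀ x ∈ l.flatten, x.2 + 1 < m := by
  intro x hx
  obtain ⟨y, hy, hx⟩ := List.mem_flatten.1 hx
  obtain ⟨i, rfl⟩ := (List.mem_ofFn' _ _).1 (hl y hy)
  exact h i x hx

theorem shiftD {R : Type*} [CommRing R] (f : ℤ → R) (P : Polynomial R) (a n : ℤ) :
    Polynomial.aeval (Dl R) P (fun z => f (z + a)) n = Polynomial.aeval (Dl R) P f (n + a) := by
  have key : ∀ (k : ℕ) (n : ℤ), ((Dl R) ^ k) (fun z => f (z + a)) n = ((Dl R) ^ k) f (n + a) := by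
    intro k
    induction k with
    | zero => intro n; rfl
    | succ k ih =>
      intro n
      rw [pow_succ', Module.End.mul_apply, Module.End.mul_apply]
      show ((Dl R) ^ k) _ (n + 1) - ((Dl R) ^ k) _ n = 
        ((Dl R) ^ k) f (n + a + 1) - ((Dl R) ^ k) f (n + a)
      rw [ih, ih, show n + 1 + a = n + a + 1 by ring]
  rw [Polynomial.aeval_eq_sum_range, LinearMap.sum_apply, LinearMap.sum_apply, 
    Finset.sum_apply, Finset.sum_apply]
  refine Finset.sum_congr rfl fun k _ => ?_
  rw [LinearMap.smul_apply, LinearMap.smul_apply, Pi.smul_apply, Pi.smul_apply, key]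

/-- the recurrence in the direction of the `i`-th exponent -/
theorem dir {m k : ℕ} (hm : 0 < m) (O : Outer m) {Q : Type} (W : Fin k → List (Bool × ℕ)) 
    (V : Q → Fin k → List (Bool × ℕ)) (V0 : Fin k → List (Bool × ℕ)) 
    (hW : ∀ i, ∀ x ∈ W i, x.2 + 1 < m) (hV : ∀ q i, ∀ x ∈ V q i, x.2 + 1 < m) 
    (hV0' : ∀ l, ∀ y ∈ V0 l, y.2 + 1 < m)
    (hp : ∀ i, permL (W i) = 1) (hV0 : ∀ q i, permL (V q i) = permL (V0 i)) 
    (i : Fin k) (off n : ℕ) (hn : 0 < n) (hoff : off + n ≤ m) 
    (hw : ∀ x ∈ W i, off ≤ x.2 ∧ x.2 + 1 < off + n) :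
    ∃ p : Polynomial ℤ[T;T⁻¹], PD (T 1 + 1) (n.choose (n/2)) p ∧ 
      Polynomial.aeval (Sf ℤ[T;T⁻¹] Q (Pi.single i 1) - 1) p (fun x => ff O (word W (V x.1) x.2)) = 0 := by
  set c : ℤ := costS (W i) (pat (draw O ((List.ofFn V0).take i).flatten).up) with hc
  have hce : Even c := even_cost (W i) (hW i) (hp i) _
  obtain ⟨p, hp1, hp2⟩ := recur hm (W i) off n hn hoff hw (hp i) c hce
  refine ⟨p, hp1, ?_⟩
  funext x
  set G : Q × (Fin k → ℤ) → ℤ[T;T⁻¹] := fun x => ff O (word W (V x.1) x.2) with hG
  have h1 := diag G (Pi.single i 1) p x 0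
  have h2 : (x.1, x.2 + (0 : ℤ) • (Pi.single i 1 : Fin k → ℤ)) = x := by simp
  rw [h2] at h1
  rw [← h1]
  -- the word
  set g : ℤ → Fin k → List (Bool × ℕ) := fun z l => 
    powL (W l) ((x.2 + z • (Pi.single i 1 : Fin k → ℤ)) l) ++ V x.1 l with hg
  have hgl : ∀ z, ∀ l, l ≠ i → g z l = powL (W l) (x.2 l) ++ V x.1 l := by
    intro z l hl
    simp only [hg, Pi.add_apply, Pi.smul_apply, Pi.single_eq_of_ne hl, smul_zero, add_zero]
  have hgi : ∀ z, g z i = powL (W i) (x.2 i + z) ++ V x.1 i := by
    intro z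
    simp [hg]
  set pre : List (Bool × ℕ) := ((List.ofFn (g 0)).take i).flatten with hpre
  set post : List (Bool × ℕ) := ((List.ofFn (g 0)).drop (i+1)).flatten with hpost
  have hpre' : ∀ z, ((List.ofFn (g z)).take i).flatten = pre := by
    intro z
    rw [hpre]
    congr 1
    apply List.ext_getElem
    · simp
    · intro n h1 h2
      simp only [List.getElem_take, List.getElem_ofFn]
      have h3 : n < i := by
        have := h1
        simp only [List.length_take, List.length_ofFn] at this
        omega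
      rw [hgl z _ (fun h => by have := congrArg Fin.val h; simp only at this; omega), 
        hgl 0 _ (fun h => by have := congrArg Fin.val h; simp only at this; omega)]
  have hpost' : ∀ z, ((List.ofFn (g z)).drop (i+1)).flatten = post := by
    intro z
    rw [hpost]
    congr 1
    apply List.ext_getElem
    · simp
    · intro n h1 h2
      simp only [List.getElem_drop, List.getElem_ofFn]
      rw [hgl z _ (fun h => by have := congrArg Fin.val h; simp only at this; omega), 
        hgl 0 _ (fun h => by have := congrArg Fin.val h; simp only at this; omega)]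
  have hword : ∀ z, G (x.1, x.2 + z • (Pi.single i 1 : Fin k → ℤ)) = 
      ff (draw O pre) (powL (W i) (z + x.2 i) ++ (V x.1 i ++ post)) := by
    intro z
    have h3 : word W (V x.1) (x.2 + z • (Pi.single i 1 : Fin k → ℤ)) = (List.ofFn (g z)).flatten := rfl
    simp only [hG]
    rw [h3, flatten_split (g z) i, hpre', hpost', hgi, List.append_assoc, add_comm (x.2 i) z]
    unfold ff
    rw [draw_append]
  have hlt : ∀ l, ∀ y ∈ g 0 l, y.2 + 1 < m := by
    intro l y hy
    rcases List.mem_append.1 hy with hy | hy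
    · exact powL_lt (hW l) _ y hy
    · exact hV x.1 l y hy
  have hcost : costS (W i) (pat (draw O pre).up) = c := by
    rw [hc, (draw_writhe pre O (flat_lt hlt (fun y hy => List.mem_of_mem_take hy))).2]
    rw [(draw_writhe _ O (flat_lt hV0' (fun y hy => List.mem_of_mem_take hy))).2]
    congr 3
    rw [hpre]
    apply permL_flat
    intro l
    rw [hg]
    simp only
    rw [permL_append, permL_powL (hp l), one_mul, hV0]
  have h5 := hp2 (draw O pre) (V x.1 i ++ post) (by
    intro y hy
    rcases List.mem_append.1 hy with hy | hy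
    · exact hV x.1 i y hy
    · exact flat_lt hlt (fun y hy => List.mem_of_mem_drop hy) y hy) hcost
  have h6 : (fun z : ℤ => G (x.1, x.2 + z • (Pi.single i 1 : Fin k → ℤ))) = 
      fun z => (fun z => ff (draw O pre) (powL (W i) z ++ (V x.1 i ++ post))) (z + x.2 i) := by
    funext z
    exact hword z
  rw [h6]
  refine (shiftD (fun z => ff (draw O pre) (powL (W i) z ++ (V x.1 i ++ post))) p (x.2 i) 0).trans ?_
  rw [h5]
  rfl

/-- the recurrence for all the exponents together -/
theorem all {m k : ℕ} (hm : 0 < m) (O : Outer m) {Q : Type} (W : Fin k → List (Bool × ℕ)) 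
    (V : Q → Fin k → List (Bool × ℕ)) (V0 : Fin k → List (Bool × ℕ)) 
    (hV : ∀ q i, ∀ x ∈ V q i, x.2 + 1 < m) 
    (hV0' : ∀ l, ∀ y ∈ V0 l, y.2 + 1 < m)
    (hp : ∀ i, permL (W i) = 1) (hV0 : ∀ q i, permL (V q i) = permL (V0 i)) 
    (off n : Fin k → ℕ) (hn : ∀ i, 0 < n i) (hoff : ∀ i, off i + n i ≤ m) 
    (hw : ∀ i, ∀ x ∈ W i, off i ≤ x.2 ∧ x.2 + 1 < off i + n i) (I : Finset (Fin k)) : 
    ∃ P : Polynomial ℤ[T;T⁻¹], PD (T 1 + 1) (∏ i ∈ I, (n i).choose (n i/2)) P ∧ 
      ∀ (q : Q) (t : Fin k → ℤ), Polynomial.aeval (Dl ℤ[T;T⁻¹]) P 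
        (fun z : ℤ => ff O (word W (V q) (t + z • ∑ i ∈ I, Pi.single i 1))) = 0 := by
  have hW : ∀ i, ∀ x ∈ W i, x.2 + 1 < m := fun i x hx => by
    have h1 := hw i x hx
    have h2 := hoff i
    omega
  obtain ⟨P, hP1, hP2⟩ := allPD (π := (T 1 + 1 : ℤ[T;T⁻¹])) (fun x hx => 
    (mul_eq_zero.1 hx).resolve_left pi_ne_zero) (fun x : Q × (Fin k → ℤ) => ff O (word W (V x.1) x.2)) 
    (fun i => (n i).choose (n i/2)) I (fun i _ => 
      dir hm O W V V0 hW hV hV0' hp hV0 i (off i) (n i) (hn i) (hoff i) (hw i))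
  refine ⟨P, hP1, fun q t => ?_⟩
  funext z
  have h1 := diag (fun x : Q × (Fin k → ℤ) => ff O (word W (V x.1) x.2)) 
    (∑ i ∈ I, Pi.single i 1) P (q, t) z
  simp only at h1
  rw [h1, hP2]
  rfl

/-! ### the exponents `∑_j Λ_{ij} q_j + s_i` -/

theorem expo_add {k r : ℕ} (Λ : Fin k → Fin r → ℤ) (s : Fin k → ℤ) (q : Fin r → ℤ) (j : Fin r) (z : ℤ) 
    (i : Fin k) : expo Λ s (q + z • Pi.single j 1) i = Λ i j * z + expo Λ s q i := by
  unfold expo
  have h1 : ∀ l, Λ i l * (q + z • (Pi.single j 1 : Fin r → ℤ)) l = 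
      Λ i l * q l + if l = j then Λ i j * z else 0 := by
    intro l
    by_cases hl : l = j
    · subst hl; simp [mul_add]
    · simp [hl]
  simp only [h1]
  rw [Finset.sum_add_distrib, Finset.sum_ite_eq', if_pos (Finset.mem_univ _)]
  ring

theorem zpow_expo {k r : ℕ} (Λ : Fin k → Fin r → ℤ) (s : Fin k → ℤ) (q : Fin r → ℤ) (i : Fin k) 
    (x : Equiv.Perm ℕ) (h : ∀ j, x ^ (Λ i j) = 1) : x ^ expo Λ s q i = x ^ s i := by
  unfold expo
  rw [zpow_add]
  have h1 : ∀ I : Finset (Fin r), x ^ (∑ j ∈ I, Λ i j * q j) = 1 := by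
    intro I
    induction I using Finset.induction_on with
    | empty => simp
    | insert a I ha ih => rw [Finset.sum_insert ha, zpow_add, zpow_mul, h, ih, one_zpow, one_mul]
  rw [h1, one_mul]

/-- one direction in the parameter space -/
theorem line {m k r : ℕ} (hm : 0 < m) (O : Outer m) (w v : Fin k → List (Letter m)) 
    (Λ : Fin k → Fin r → ℤ) (s : Fin k → ℤ) (hΛ : ∀ i j, IsPure (powW (w i) (Λ i j))) 
    (off n : Fin k → ℕ) (hn : ∀ i, 0 < n i) (hoff : ∀ i, off i + n i ≤ m) 
    (hw : ∀ i, ∀ x ∈ w i, off i ≤ x.2 ∧ (x.2 : ℕ) + 1 < off i + n i) (F : ℤ[T;T⁻¹]) 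
    (q : Fin r → ℤ) (j : Fin r) :
    (∀ z : ℤ, (dia O (multiW w v (expo Λ s (q + z • Pi.single j 1)))).fPoly = F) ∨
      ∀ Z : Finset ℤ, (∀ z ∈ Z, (dia O (multiW w v (expo Λ s (q + z • Pi.single j 1)))).fPoly = F) → 
        Z.card ≤ ∏ i with Λ i j ≠ 0, (n i).choose (n i / 2) := by
  classical
  set W : Fin k → List (Bool × ℕ) := fun i => powL (toN (w i)) (Λ i j) with hW
  set V : (Fin r → ℤ) → Fin k → List (Bool × ℕ) := fun q i => 
    powL (toN (w i)) (expo Λ s q i) ++ toN (v i) with hV
  set V0 : Fin k → List (Bool × ℕ) := fun i => powL (toN (w i)) (s i) ++ toN (v i) with hV0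
  have hpure : ∀ i j, (permL (toN (w i))) ^ (Λ i j) = 1 := by
    intro i j
    rw [← permL_zpow, ← toN_pow]
    exact permL_of_pure (hΛ i j)
  have hwN : ∀ i, ∀ x ∈ toN (w i), off i ≤ x.2 ∧ x.2 + 1 < off i + n i := by
    intro i x hx
    obtain ⟨y, hy, rfl⟩ := List.mem_map.1 hx
    exact hw i y hy
  have hpow : ∀ (i : Fin k) (z : ℤ), ∀ x ∈ powL (toN (w i)) z, off i ≤ x.2 ∧ x.2 + 1 < off i + n i := by
    intro i z x hx
    rcases z with z | z
    · obtain ⟨l, hl, hx⟩ := List.mem_flatten.1 hx
      rw [(List.mem_replicate.1 hl).2] at hx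
      exact hwN i x hx
    · obtain ⟨l, hl, hx⟩ := List.mem_flatten.1 hx
      rw [(List.mem_replicate.1 hl).2] at hx
      unfold invL at hx
      rw [List.mem_reverse, List.mem_map] at hx
      obtain ⟨y, hy, rfl⟩ := hx
      exact hwN i y hy
  have hVlt : ∀ (z : ℤ) (i : Fin k), ∀ x ∈ powL (toN (w i)) z ++ toN (v i), x.2 + 1 < m := by
    intro z i x hx
    rcases List.mem_append.1 hx with hx | hx
    · exact powL_lt (toN_lt _) _ x hx
    · exact toN_lt _ x hx
  obtain ⟨P, hP1, hP2⟩ := all hm O W V V0 (fun q i => hVlt _ i) (fun i => hVlt _ i) 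
    (fun i => by rw [hW]; simp only; rw [permL_zpow, hpure])
    (fun q i => by
      simp only [hV, hV0]
      rw [permL_append, permL_append, permL_zpow, permL_zpow, zpow_expo _ _ _ _ _ (hpure i)])
    off n hn hoff (fun i => hpow i _) (univ.filter (fun i => Λ i j ≠ 0))
  have hval : ∀ z : ℤ, (dia O (multiW w v (expo Λ s (q + z • Pi.single j 1)))).fPoly = 
      ff O (word W (V q) (0 + z • ∑ i ∈ univ.filter (fun i => Λ i j ≠ 0), Pi.single i 1)) := by
    intro z
    rw [dia_fPoly, toN_multi]
    apply ff_congr hm O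
    · refine flat_lt (g := fun i => powL (toN (w i)) (expo Λ s (q + z • Pi.single j 1) i) ++ toN (v i)) 
        (fun i => hVlt _ i) (fun y hy => hy)
    · refine flat_lt (g := fun i => powL (W i) ((0 + z • ∑ i ∈ univ.filter (fun i => Λ i j ≠ 0), 
        (Pi.single i 1 : Fin k → ℤ)) i) ++ V q i) (fun i x hx => ?_) (fun y hy => hy)
      rcases List.mem_append.1 hx with hx | hx
      · exact powL_lt (powL_lt (toN_lt _) _) _ x hx
      · exact hVlt _ i x hx
    · unfold word
      apply Eqv.flatten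
      intro i
      rw [expo_add]
      have h1 : (0 + z • ∑ i ∈ univ.filter (fun i => Λ i j ≠ 0), (Pi.single i 1 : Fin k → ℤ)) i = 
          if Λ i j ≠ 0 then z else 0 := by
        rw [Pi.add_apply, Pi.zero_apply, zero_add, Pi.smul_apply, Finset.sum_apply, 
          Finset.sum_filter]
        have h2 : ∀ l : Fin k, (if Λ l j ≠ 0 then (Pi.single l 1 : Fin k → ℤ) i else 0) = 
            if l = i then (if Λ i j ≠ 0 then 1 else 0) else 0 := by
          intro l
          by_cases hl : l = i
          · subst hl; simp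
          · rw [if_neg hl, Pi.single_eq_of_ne (Ne.symm hl)]; simp
        rw [Finset.sum_congr rfl (fun l _ => h2 l), Finset.sum_ite_eq', if_pos (Finset.mem_univ _)]
        split_ifs <;> simp
      rw [h1]
      simp only [hW, hV]
      rw [← List.append_assoc]
      refine Eqv.append ?_ (Eqv.refl _)
      by_cases h3 : Λ i j = 0
      · rw [if_neg (not_not.2 h3), h3, zero_mul, zero_add]
        exact Eqv.refl _
      · rw [if_pos h3]
        exact powL_mulZ (toN_lt _) (Λ i j) (expo Λ s q i) z
  simp only [hval]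
  exact zeros hP1 _ (hP2 q 0) F

/-! ### boxes -/

theorem gridD {k : ℕ} (S : Set (Fin k → ℤ)) [DecidablePred (· ∈ S)] (D : Fin k → ℕ) 
    (hline : ∀ (x : Fin k → ℤ) (i : Fin k), (∀ t, Function.update x i t ∈ S) ∨ 
      ∀ Z : Finset ℤ, (∀ z ∈ Z, Function.update x i z ∈ S) → Z.card ≤ D i) :
    (∀ x, x ∈ S) ∨ ∀ A : Fin k → Finset ℤ, 
      ((Fintype.piFinset A).filter (· ∈ S)).card ≤ ∑ i, D i * ∏ j ∈ univ.erase i, (A j).card := by
  classical
  by_cases hall : ∀ x, x ∈ S
  · exact Or.inl hall
  right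
  push Not at hall
  obtain ⟨x0, hx0⟩ := hall
  intro A
  set y : ℕ → (Fin k → ℤ) → (Fin k → ℤ) := fun i x l => if (l : ℕ) < i then x0 l else x l with hy
  -- the bad sets
  set Bd : Fin k → Finset (Fin k → ℤ) := fun i => 
    (Fintype.piFinset A).filter (fun x => y i x ∈ S ∧ y (i+1) x ∉ S) with hBd
  have hcover : (Fintype.piFinset A).filter (· ∈ S) ⊆ univ.biUnion Bd := by
    intro x hx
    rw [Finset.mem_filter] at hx
    rw [Finset.mem_biUnion]
    by_contra hcon
    push Not at hcon
    have h1 : ∀ i ≤ k, y i x ∈ S := by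
      intro i
      induction i with
      | zero =>
        intro _
        have : y 0 x = x := by funext l; simp [hy]
        rw [this]; exact hx.2
      | succ i ih =>
        intro hi
        by_contra hns
        have h2 := hcon ⟨i, by omega⟩ (Finset.mem_univ _)
        apply h2
        rw [hBd]
        simp only [Finset.mem_filter]
        exact ⟨hx.1, ih (by omega), hns⟩
    have h2 := h1 k le_rfl
    have h3 : y k x = x0 := by
      funext l
      simp only [hy]
      rw [if_pos l.2]
    rw [h3] at h2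
    exact hx0 h2
  have hcard : ∀ i, (Bd i).card ≤ D i * ∏ j ∈ univ.erase i, (A j).card := by
    intro i
    set φ : (Fin k → ℤ) → (Fin k → ℤ) := fun x => Function.update x i 0 with hφ
    have h1 : (Bd i).card ≤ D i * ((Bd i).image φ).card := by
      apply Finset.card_le_mul_card_image
      intro z hz
      rw [Finset.mem_image] at hz
      obtain ⟨x1, hx1, hx1z⟩ := hz
      rw [hBd] at hx1
      simp only [Finset.mem_filter] at hx1
      -- points in the fibre agree off `i`
      have hag : ∀ x ∈ (Bd i).filter (fun x => φ x = z), ∀ l, l ≠ i → x l = x1 l := by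
        intro x hx l hl
        rw [Finset.mem_filter] at hx
        have h2 : φ x = φ x1 := by rw [hx.2, hx1z]
        have h3 := congrFun h2 l
        simp only [hφ] at h3
        rwa [Function.update_of_ne hl, Function.update_of_ne hl] at h3
      have hyu : ∀ x ∈ (Bd i).filter (fun x => φ x = z), 
          y i x = Function.update (y (i+1) x1) i (x i) := by
        intro x hx
        funext l
        by_cases hl : l = i
        · subst hl
          rw [Function.update_self]
          simp [hy]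
        · rw [Function.update_of_ne hl]
          simp only [hy]
          have hl' : (l : ℕ) ≠ i := fun h => hl (Fin.ext h)
          by_cases h2 : (l : ℕ) < i
          · rw [if_pos h2, if_pos (by omega)]
          · rw [if_neg h2, if_neg (by omega)]
            exact hag x hx l hl
      have hinj : Set.InjOn (fun x : Fin k → ℤ => x i) ((Bd i).filter (fun x => φ x = z)) := by
        intro x hx x' hx' hxx
        funext l
        by_cases hl : l = i
        · rw [hl]; exact hxx
        · rw [hag x hx l hl, hag x' hx' l hl]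
      rw [← Finset.card_image_of_injOn hinj]
      rcases hline (y (i+1) x1) i with h2 | h2
      · exfalso
        apply hx1.2.2
        have := h2 (y (i+1) x1 i)
        rwa [Function.update_eq_self] at this
      · apply h2
        intro t ht
        rw [Finset.mem_image] at ht
        obtain ⟨x, hx, rfl⟩ := ht
        rw [← hyu x hx]
        rw [Finset.mem_filter, hBd] at hx
        simp only [Finset.mem_filter] at hx
        exact hx.1.2.1
    refine h1.trans (Nat.mul_le_mul_left _ ?_)
    have h2 : (Bd i).image φ ⊆ Fintype.piFinset (Function.update A i {0}) := by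
      intro z hz
      rw [Finset.mem_image] at hz
      obtain ⟨x, hx, rfl⟩ := hz
      rw [hBd] at hx
      simp only [Finset.mem_filter, Fintype.mem_piFinset] at hx
      rw [Fintype.mem_piFinset]
      intro l
      by_cases hl : l = i
      · subst hl
        simp [hφ]
      · simp only [hφ]
        rw [Function.update_of_ne hl, Function.update_of_ne hl]
        exact hx.1 l
    refine (Finset.card_le_card h2).trans ?_
    rw [Fintype.card_piFinset, ← Finset.mul_prod_erase univ _ (Finset.mem_univ i), 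
      Function.update_self, Finset.card_singleton, one_mul]
    apply le_of_eq
    refine Finset.prod_congr rfl fun j hj => ?_
    rw [Function.update_of_ne (Finset.ne_of_mem_erase hj)]
  calc ((Fintype.piFinset A).filter (· ∈ S)).card ≤ (univ.biUnion Bd).card := 
        Finset.card_le_card hcover
    _ ≤ ∑ i, (Bd i).card := Finset.card_biUnion_le
    _ ≤ ∑ i, D i * ∏ j ∈ univ.erase i, (A j).card := Finset.sum_le_sum fun i _ => hcard i

open Classical in
/-- **Powers of braids with affine exponents.** -/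
theorem family {m k r : ℕ} (hm : 0 < m) (O : Outer m) (w v : Fin k → List (Letter m)) 
    (Λ : Fin k → Fin r → ℤ) (s : Fin k → ℤ) (hΛ : ∀ i j, IsPure (powW (w i) (Λ i j))) 
    (off n : Fin k → ℕ) (hn : ∀ i, 0 < n i) (hoff : ∀ i, off i + n i ≤ m) 
    (hw : ∀ i, ∀ x ∈ w i, off i ≤ x.2 ∧ (x.2 : ℕ) + 1 < off i + n i) (F : ℤ[T;T⁻¹]) :
    (∀ q : Fin r → ℤ, (dia O (multiW w v (expo Λ s q))).fPoly = F) ∨
      ∀ A : Fin r → Finset ℤ, ((Fintype.piFinset A).filter 
        (fun q => (dia O (multiW w v (expo Λ s q))).fPoly = F)).card ≤ 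
          ∑ j, (∏ i with Λ i j ≠ 0, (n i).choose (n i / 2)) * ∏ l ∈ univ.erase j, (A l).card := by
  refine gridD {q | (dia O (multiW w v (expo Λ s q))).fPoly = F} _ (fun x j => ?_)
  have h1 : ∀ t, Function.update x j t = x + (t - x j) • Pi.single j 1 := by
    intro t
    funext l
    by_cases hl : l = j
    · subst hl; simp
    · rw [Function.update_of_ne hl]; simp [hl]
  rcases line hm O w v Λ s hΛ off n hn hoff hw F x j with h | h
  · left
    intro t
    rw [h1]
    exact h _
  · right
    intro Z hZ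
    have h2 := h (Z.image (fun t => t - x j)) (by
      intro z hz
      obtain ⟨t, ht, rfl⟩ := Finset.mem_image.1 hz
      have := hZ t ht
      rw [h1] at this
      exact this)
    rwa [Finset.card_image_of_injective _ (fun a b hab => by simpa using hab)] at h2

end Pool.Agent.N571.TLF
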