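import Pool.Agent.N571.TLF.CH
import Pool.Agent.Y463.SK.Val

/-!
# Products of commuting operators with annihilating polynomials of the type `PD`
-/

set_option autoImplicit false

namespace Pool.Agent.N571.TLF

open Polynomial Finset Pool.Agent.Y463.SK

section
variable {R V : Type*} [CommRing R] [AddCommGroup V] [Module R V]

theorem PD.X {π : R} [Nontrivial R] : PD π 1 (X : R[X]) := by
  refine ⟨monic_X, by rw [natDegree_X], fun j => ?_⟩
  rcases j with _ | j
  · rw [coeff_X_zero]; exact dvd_zero _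
  · rw [natDegree_X]
    have : 1 - (j + 1) = 0 := by omega
    rw [this, pow_zero]; exact one_dvd _

/-- an operator multiplied by `π` -/
theorem half {π : R} {s : Module.End R V} {G : V} {n : ℕ} {p : R[X]} (hp : p.Monic) 
    (hn : p.natDegree = n) (hc : ∀ j, π ^ (n - j) ∣ p.coeff j) (hG : aeval s p G = 0) 
    (c : ℕ) : ∀ i < n, ∃ y ∈ Submodule.span R {x | ∃ l < n, x = π ^ (n - l + c) • (s ^ l) G}, 
      s (π ^ (n - i + c) • (s ^ i) G) = π • y := by
  intro i hi
  rcases Nat.eq_or_lt_of_le (show i + 1 ≤ n from hi) with h1 | h1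
  · choose a ha using hc
    refine ⟨- ∑ l ∈ range n, a l • (π ^ (n - l + c) • (s ^ l) G), ?_, ?_⟩
    · refine Submodule.neg_mem _ (Submodule.sum_mem _ fun l hl => Submodule.smul_mem _ _ 
        (Submodule.subset_span ⟨l, Finset.mem_range.1 hl, rfl⟩))
    · rw [aeval_eq_sum_range, Finset.sum_range_succ, hp.coeff_natDegree, one_smul, 
        LinearMap.add_apply, hn] at hG
      have h2 : (s ^ n) G = - ∑ l ∈ range n, (p.coeff l) • (s ^ l) G := by
        rw [eq_neg_iff_add_eq_zero, add_comm, ← hG]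
        congr 1
        rw [LinearMap.sum_apply]
        rfl
      have h3 : n - i + c = 1 + c := by omega
      rw [map_smul, ← Module.End.mul_apply, ← pow_succ', h1, h2, h3, smul_neg, smul_neg, 
        Finset.smul_sum, Finset.smul_sum]
      congr 1
      refine Finset.sum_congr rfl fun l _ => ?_
      rw [ha l, smul_smul, smul_smul, smul_smul]
      congr 1
      ring
  · refine ⟨π ^ (n - (i+1) + c) • (s ^ (i+1)) G, Submodule.subset_span ⟨i+1, h1, rfl⟩, ?_⟩
    have h3 : n - i + c = n - (i+1) + c + 1 := by omega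
    rw [map_smul, ← Module.End.mul_apply, ← pow_succ', smul_smul, h3, pow_succ']

theorem prodPD {π : R} (htf : ∀ x : V, π • x = 0 → x = 0) [Nontrivial R] {s t : Module.End R V} 
    (hst : Commute s t) {G : V} {n n' : ℕ} {p q : R[X]} (hp : PD π n p) (hq : PD π n' q) 
    (hs : aeval s p G = 0) (ht : aeval t q G = 0) : 
    ∃ P, PD π (n * n') P ∧ aeval (s + t + s * t) P G = 0 := by
  obtain ⟨a1, a2, a3⟩ := hp
  obtain ⟨b1, b2, b3⟩ := hq
  set N := p.natDegree with hN
  set N' := q.natDegree with hN'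
  set f : ℕ → ℕ → V := fun i j => π ^ (N - i + (N' - j)) • (s ^ i) ((t ^ j) G) with hf
  have hcomm : ∀ i j (x : V), (s ^ i) ((t ^ j) x) = (t ^ j) ((s ^ i) x) := by
    intro i j x
    rw [← Module.End.mul_apply, ← Module.End.mul_apply, (hst.pow_pow i j).eq]
  set l : List V := (List.range N).flatMap (fun i => (List.range N').map (fun j => f i j)) with hl
  have hmem : ∀ x, x ∈ l ↔ ∃ i < N, ∃ j < N', x = f i j := by
    intro x
    simp only [hl, List.mem_flatMap, List.mem_range, List.mem_map]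
    constructor
    · rintro ⟨i, hi, j, hj, h⟩; exact ⟨i, hi, j, hj, h.symm⟩
    · rintro ⟨i, hi, j, hj, h⟩; exact ⟨i, hi, j, hj, h.symm⟩
  have hlen : l.length = N * N' := by
    rw [hl, List.length_flatMap]
    simp
  set K := Submodule.span R {x | x ∈ l} with hK
  -- the operator s
  have hsK : ∀ x ∈ K, ∃ y ∈ K, s x = π • y := by
    intro x hx
    induction hx using Submodule.span_induction with
    | mem x hx =>
      obtain ⟨i, hi, j, hj, rfl⟩ := (hmem x).1 hx
      have h1 : aeval s p ((t ^ j) G) = 0 := by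
        have h2 : Commute (aeval s p) (t ^ j) := by
          have : Commute s (t ^ j) := hst.pow_right j
          exact (Polynomial.aeval_eq_sum_range (x := s) (p := p)) ▸ 
            Commute.sum_left _ _ _ (fun i _ => (this.pow_left i).smul_left _)
        rw [← Module.End.mul_apply, h2.eq, Module.End.mul_apply, hs, map_zero]
      obtain ⟨y, hy, h2⟩ := half (π := π) a1 hN.symm a3 h1 (N' - j) i hi
      refine ⟨y, ?_, h2⟩
      refine Submodule.span_le.2 ?_ hy
      rintro _ ⟨l', hl', rfl⟩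
      exact Submodule.subset_span ((hmem _).2 ⟨l', hl', j, hj, rfl⟩)
    | zero => exact ⟨0, Submodule.zero_mem _, by simp⟩
    | add a b _ _ ha hb => 
      obtain ⟨y, hy, h1⟩ := ha
      obtain ⟨z, hz, h2⟩ := hb
      exact ⟨y + z, Submodule.add_mem _ hy hz, by rw [map_add, h1, h2, smul_add]⟩
    | smul r a _ ha => 
      obtain ⟨y, hy, h1⟩ := ha
      exact ⟨r • y, Submodule.smul_mem _ _ hy, by rw [map_smul, h1, smul_comm]⟩
  have htK : ∀ x ∈ K, ∃ y ∈ K, t x = π • y := by
    intro x hx
    induction hx using Submodule.span_induction with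
    | mem x hx =>
      obtain ⟨i, hi, j, hj, rfl⟩ := (hmem x).1 hx
      have h1 : aeval t q ((s ^ i) G) = 0 := by
        have h2 : Commute (aeval t q) (s ^ i) := by
          have : Commute t (s ^ i) := (hst.symm).pow_right i
          exact (Polynomial.aeval_eq_sum_range (x := t) (p := q)) ▸ 
            Commute.sum_left _ _ _ (fun i _ => (this.pow_left i).smul_left _)
        rw [← Module.End.mul_apply, h2.eq, Module.End.mul_apply, ht, map_zero]
      obtain ⟨y, hy, h2⟩ := half (π := π) b1 hN'.symm b3 h1 (N - i) j hj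
      refine ⟨y, ?_, ?_⟩
      · refine Submodule.span_le.2 ?_ hy
        rintro _ ⟨l', hl', rfl⟩
        refine Submodule.subset_span ((hmem _).2 ⟨i, hi, l', hl', ?_⟩)
        rw [hf]
        simp only
        rw [hcomm i l', Nat.add_comm (N - i)]
      · rw [← h2, hf]
        simp only
        rw [hcomm i j, Nat.add_comm (N - i)]
    | zero => exact ⟨0, Submodule.zero_mem _, by simp⟩
    | add a b _ _ ha hb => 
      obtain ⟨y, hy, h1⟩ := ha
      obtain ⟨z, hz, h2⟩ := hb
      exact ⟨y + z, Submodule.add_mem _ hy hz, by rw [map_add, h1, h2, smul_add]⟩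
    | smul r a _ ha => 
      obtain ⟨y, hy, h1⟩ := ha
      exact ⟨r • y, Submodule.smul_mem _ _ hy, by rw [map_smul, h1, smul_comm]⟩
  obtain ⟨P, hP1, hP2⟩ := exists_PD (π := π) (s + t + s * t) l (by
    intro x hx
    obtain ⟨y1, k1, e1⟩ := hsK x hx
    obtain ⟨y2, k2, e2⟩ := htK x hx
    obtain ⟨y3, k3, e3⟩ := hsK y2 k2
    refine ⟨y1 + y2 + π • y3, Submodule.add_mem _ (Submodule.add_mem _ k1 k2) 
      (Submodule.smul_mem _ _ k3), ?_⟩
    rw [LinearMap.add_apply, LinearMap.add_apply, Module.End.mul_apply, e1, e2, map_smul, e3, 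
      smul_add, smul_add])
  refine ⟨P, hP1.mono (by rw [hlen]; exact Nat.mul_le_mul a2 b2), ?_⟩
  rcases Nat.eq_zero_or_pos N with h0 | h0
  · have h1 : p = 1 := a1.natDegree_eq_zero.1 (by rw [← hN]; exact h0)
    rw [h1, map_one, Module.End.one_apply] at hs
    rw [hs, map_zero]
  rcases Nat.eq_zero_or_pos N' with h0' | h0'
  · have h1 : q = 1 := b1.natDegree_eq_zero.1 (by rw [← hN']; exact h0')
    rw [h1, map_one, Module.End.one_apply] at ht
    rw [ht, map_zero]
  have h2 := hP2 (f 0 0) (Submodule.subset_span ((hmem _).2 ⟨0, h0, 0, h0', rfl⟩))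
  rw [hf] at h2
  simp only [pow_zero, Module.End.one_apply, map_smul] at h2
  have h3 : ∀ (k : ℕ) (x : V), π ^ k • x = 0 → x = 0 := by
    intro k
    induction k with
    | zero => intro x hx; simpa using hx
    | succ k ih =>
      intro x hx
      rw [pow_succ', mul_smul] at hx
      exact ih x (htf _ hx)
  exact h3 _ _ h2

end

/-! ### shifts of functions of several variables -/

section shifts
variable {R : Type*} [CommRing R] {Q ι : Type*}

/-- the shift by `v` -/
def Sf (R : Type*) [CommRing R] (Q : Type*) {ι : Type*} (v : ι → ℤ) : 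
    Module.End R (Q × (ι → ℤ) → R) where
  toFun G := fun x => G (x.1, x.2 + v)
  map_add' _ _ := rfl
  map_smul' _ _ := rfl

theorem Sf_mul (v w : ι → ℤ) : Sf R Q v * Sf R Q w = Sf R Q (v + w) := by
  ext G x
  show G (x.1, x.2 + v + w) = G (x.1, x.2 + (v + w))
  rw [add_assoc]

theorem Sf_zero : Sf R Q (0 : ι → ℤ) = 1 := by
  ext G x
  show G (x.1, x.2 + 0) = G x
  rw [add_zero]

theorem Sf_comm (v w : ι → ℤ) : Commute (Sf R Q v) (Sf R Q w) := by
  rw [Commute, SemiconjBy, Sf_mul, Sf_mul, add_comm]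

theorem allPD [Nontrivial R] [DecidableEq ι] {π : R} (htf : ∀ x : R, π * x = 0 → x = 0) 
    (G : Q × (ι → ℤ) → R) (n : ι → ℕ) (I : Finset ι) 
    (h : ∀ i ∈ I, ∃ p, PD π (n i) p ∧ aeval (Sf R Q (Pi.single i 1) - 1) p G = 0) :
    ∃ P, PD π (∏ i ∈ I, n i) P ∧ aeval (Sf R Q (∑ i ∈ I, Pi.single i 1) - 1) P G = 0 := by
  induction I using Finset.induction_on with
  | empty =>
    refine ⟨X, by simpa using PD.X, ?_⟩
    rw [Finset.sum_empty, Sf_zero, sub_self, aeval_X]
    rfl
  | insert i I hi ih =>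
    obtain ⟨p, hp1, hp2⟩ := h i (Finset.mem_insert_self _ _)
    obtain ⟨q, hq1, hq2⟩ := ih (fun j hj => h j (Finset.mem_insert_of_mem hj))
    have hc : Commute (Sf R Q (Pi.single i 1) - 1) (Sf R Q (∑ i ∈ I, Pi.single i 1) - 1) := 
      ((Sf_comm _ _).sub_left (Commute.one_left _)).sub_right (Commute.one_right _)
    obtain ⟨P, hP1, hP2⟩ := prodPD (π := π) (fun x hx => by
      funext z
      exact htf _ (congrFun hx z)) hc hp1 hq1 hp2 hq2
    refine ⟨P, by rw [Finset.prod_insert hi]; exact hP1, ?_⟩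
    rw [Finset.sum_insert hi, ← Sf_mul]
    have e : Sf R Q (Pi.single i 1) - 1 + (Sf R Q (∑ i ∈ I, Pi.single i 1) - 1) + 
        (Sf R Q (Pi.single i 1) - 1) * (Sf R Q (∑ i ∈ I, Pi.single i 1) - 1) = 
        Sf R Q (Pi.single i 1) * Sf R Q (∑ i ∈ I, Pi.single i 1) - 1 := by
      rw [sub_mul, mul_sub, mul_one, one_mul]
      abel
    rw [← e]
    exact hP2

/-- restriction to a line -/
theorem diag (G : Q × (ι → ℤ) → R) (v : ι → ℤ) (P : R[X]) (x : Q × (ι → ℤ)) (n : ℤ) :
    aeval (Dl R) P (fun n : ℤ => G (x.1, x.2 + n • v)) n = 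
      aeval (Sf R Q v - 1) P G (x.1, x.2 + n • v) := by
  have key : ∀ (k : ℕ) (n : ℤ), ((Dl R) ^ k) (fun n : ℤ => G (x.1, x.2 + n • v)) n = 
      ((Sf R Q v - 1) ^ k) G (x.1, x.2 + n • v) := by
    intro k
    induction k with
    | zero => intro n; rfl
    | succ k ih =>
      intro n
      rw [pow_succ', Module.End.mul_apply, pow_succ', Module.End.mul_apply]
      show ((Dl R) ^ k) _ (n + 1) - ((Dl R) ^ k) _ n = 
        ((Sf R Q v - 1) ^ k) G (x.1, x.2 + n • v + v) - ((Sf R Q v - 1) ^ k) G (x.1, x.2 + n • v)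
      rw [ih, ih]
      congr 3
      rw [add_smul, one_smul, add_assoc]
  rw [aeval_eq_sum_range, aeval_eq_sum_range, LinearMap.sum_apply, LinearMap.sum_apply, 
    Finset.sum_apply, Finset.sum_apply]
  refine Finset.sum_congr rfl fun k _ => ?_
  rw [LinearMap.smul_apply, LinearMap.smul_apply, Pi.smul_apply, Pi.smul_apply, key]

end shifts

end Pool.Agent.N571.TLF
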