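import Pool.Agent.N571.TLF.Poly
import Pool.Agent.N571.TLF.Prod
import Pool.Agent.Y463.SK.Gen

/-!
# Powers of braids in boxes of a diagram, the exponents being affine functions of parameters
-/

set_option autoImplicit false

namespace Pool.Agent.N571.TLF

open Finset LaurentPolynomial Pool.Agent.H891R2.Jones Pool.Agent.W639.RB Pool.Agent.Y463.SK

/-- the recurrence for the powers of one pure braid on `n` of the `m` strands -/
theorem recur {m : ℕ} (hm : 0 < m) (w : List (Bool × ℕ)) (off n : ℕ) (hn : 0 < n)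
    (hoff : off + n ≤ m) (hw : ∀ x ∈ w, off ≤ x.2 ∧ x.2 + 1 < off + n) (hp : permL w = 1) (c : ℤ)
    (hc : Even c) : 
    ∃ p : Polynomial ℤ[T;T⁻¹], PD (T 1 + 1) (n.choose (n/2)) p ∧ 
      ∀ (O : Outer m) (v : List (Bool × ℕ)), (∀ x ∈ v, x.2 + 1 < m) → costS w (pat O.up) = c → 
        Polynomial.aeval (Dl ℤ[T;T⁻¹]) p (fun z => ff O (powL w z ++ v)) = 0 := by
  have hw' : ∀ x ∈ w, x.2 + 1 < m := fun x hx => by have := hw x hx; omega
  set u : ℤ[T;T⁻¹] := T (-3 * c) with hu
  have hcev : Even (-3 * c) := hc.mul_left (-3)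
  have hpi : (T 1 + 1 : ℤ[T;T⁻¹]) ∣ u - 1 := pi_dvd_T_even _ hcev
  obtain ⟨p, hp1, hp4⟩ := exists_polyB (A := (T 1 : ℤ[T;T⁻¹])) (A' := T (-1)) T_mul_inv rfl 
    (isTLr_EB m) w off n hn hoff hw hp u hpi
  refine ⟨p, hp1, fun O v hv hcO => ?_⟩
  set f : ℤ → ℤ[T;T⁻¹] := fun n => ff O (powL w n ++ v) with hf
  set X : ℤ → BB m := fun n => (T (-3 * (n * c)) : ℤ[T;T⁻¹]) • bb m (powL w n) with hX
  set b : BB m := u • bb m w with hb
  have hXs : ∀ n, X (n+1) = b * X n := by
    intro n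
    simp only [hX, hb]
    rw [bb_pow_succ w hw' n, smul_mul_smul_comm, hu, ← T_add]
    congr 2
    ring
  set K : {N : ℕ // 3 ≤ N} → ℂ := fun N => (if Even (owr O + costS v (pat O.up)) then (1 : ℂ) else -1) * 
        (Ar N.1) ^ (-3 * (owr O + costS v (pat O.up))) with hK
  have hpow : ∀ (N : {N : ℕ // 3 ≤ N}) (k : ℕ) (n : ℤ), 
      (N.1 : ℂ) * ev N.1 N.2 (((Dl ℤ[T;T⁻¹]) ^ k) f n) = K N * Fn O N v ((b - 1) ^ k * X n) := by
    intro N k
    induction k with
    | zero =>
      intro n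
      rw [pow_zero, pow_zero, one_mul]
      have := key_formula hm O w hw' hp v hv N n
      rw [hcO] at this
      exact this
    | succ k ih =>
      intro n
      have h1 : ((Dl ℤ[T;T⁻¹]) ^ (k+1)) f n = 
          ((Dl ℤ[T;T⁻¹]) ^ k) f (n+1) - ((Dl ℤ[T;T⁻¹]) ^ k) f n := by
        rw [pow_succ', Module.End.mul_apply]
        rfl
      rw [h1, map_sub, mul_sub, ih (n+1), ih n, ← mul_sub, ← Fn_sub]
      congr 2
      rw [hXs, pow_succ]
      noncomm_ring
  funext n
  apply eq_zero_of_ev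
  intro N hN
  have hNC : (N : ℂ) ≠ 0 := by
    rw [Nat.cast_ne_zero]; omega
  have h1 : (N : ℂ) * ev N hN (Polynomial.aeval (Dl ℤ[T;T⁻¹]) p f n) = 
      K ⟨N, hN⟩ * Fn O ⟨N, hN⟩ v (Polynomial.aeval (b - 1) p * X n) := by
    rw [Polynomial.aeval_eq_sum_range, Polynomial.aeval_eq_sum_range, LinearMap.sum_apply, 
      Finset.sum_apply, map_sum, Finset.mul_sum, Finset.sum_mul]
    have h2 : ∀ (s : Finset ℕ) (g : ℕ → BB m), Fn O ⟨N, hN⟩ v (∑ i ∈ s, g i) = 
        ∑ i ∈ s, Fn O ⟨N, hN⟩ v (g i) := by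
      classical
      intro s g
      induction s using Finset.induction_on with
      | empty => simp [Fn_zero]
      | insert a s ha ih => rw [Finset.sum_insert ha, Finset.sum_insert ha, Fn_add, ih]
    rw [h2, Finset.mul_sum]
    refine Finset.sum_congr rfl fun i _ => ?_
    have h3 := hpow ⟨N, hN⟩ i n
    simp only at h3
    rw [smul_mul_assoc, Fn_smul, LinearMap.smul_apply, Pi.smul_apply, smul_eq_mul, map_mul, 
      mul_left_comm, h3]
    ring
  have hp5 : Polynomial.aeval (b - 1) p = 0 := hp4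
  rw [hp5, zero_mul, Fn_zero, mul_zero] at h1
  exact (mul_eq_zero.1 h1).resolve_left hNC

/-! ### zeros on a line -/

theorem zeros {n : ℕ} {P : Polynomial ℤ[T;T⁻¹]} (hP : PD (T 1 + 1) n P) (f : ℤ → ℤ[T;T⁻¹]) 
    (hf : Polynomial.aeval (Dl ℤ[T;T⁻¹]) P f = 0) (F : ℤ[T;T⁻¹]) : 
    (∀ z, f z = F) ∨ ∀ Z : Finset ℤ, (∀ z ∈ Z, f z = F) → Z.card ≤ n := by
  by_cases hall : ∀ z, f z = F
  · exact Or.inl hall
  right
  intro Z hZ
  by_contra hcon
  apply hall
  set g : ℤ → ℤ[T;T⁻¹] := fun z => f z - F with hg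
  have hDg : Dl ℤ[T;T⁻¹] g = Dl ℤ[T;T⁻¹] f := by
    funext z
    show g (z+1) - g z = f (z+1) - f z
    simp only [hg]
    ring
  have hrecg : Polynomial.aeval (Dl ℤ[T;T⁻¹]) (P * Polynomial.X) g = 0 := by
    rw [map_mul, Polynomial.aeval_X, Module.End.mul_apply, hDg, ← Module.End.mul_apply]
    have h2 : Polynomial.aeval (Dl ℤ[T;T⁻¹]) (P * Polynomial.X) = 
        Polynomial.aeval (Dl ℤ[T;T⁻¹]) (Polynomial.X * P) := by rw [mul_comm]
    rw [map_mul, map_mul, Polynomial.aeval_X] at h2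
    rw [h2, Module.End.mul_apply, hf, map_zero]
  have hPX : PD (T 1 + 1 : ℤ[T;T⁻¹]) (n+1) (P * Polynomial.X) := hP.mul PD.X
  have hz := vanish prime_pi not_pi_dvd_int eq_zero_of_pi_pow (P * Polynomial.X) hPX.1 hPX.2.2 g hrecg Z 
    (by have := hPX.2.1; omega) (by
      intro z hz
      simp only [hg]
      rw [hZ z hz, sub_self])
  intro z
  exact sub_eq_zero.1 (congrFun hz z)

/-! ### integer powers of integer powers -/

theorem powL_neg (w : List (Bool × ℕ)) (n : ℤ) : powL (invL w) (-n) = powL w n := by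
  rcases n with n | n
  · rcases n with _ | n
    · rfl
    · show powL (invL w) (-((n+1 : ℕ) : ℤ)) = _
      have : (-((n+1 : ℕ) : ℤ)) = Int.negSucc n := by rw [Int.negSucc_eq]; push_cast; ring
      rw [this]
      show (List.replicate (n+1) (invL (invL w))).flatten = (List.replicate (n+1) w).flatten
      rw [invL_invL]
  · have : (-(Int.negSucc n)) = ((n+1 : ℕ) : ℤ) := by rw [Int.negSucc_eq]; push_cast; ring
    rw [this]
    rfl

theorem powL_mulZ {m : ℕ} {w : List (Bool × ℕ)} (hw : ∀ x ∈ w, x.2 + 1 < m) (r s q : ℤ) : 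
    Eqv m (powL w (r * q + s)) (powL (powL w r) q ++ powL w s) := by
  rcases r with r | r
  · exact powL_mul hw r s q
  · have h1 := powL_mul (m := m) (invL_lt hw) (r+1) (-s) q
    have h2 : powL w (Int.negSucc r * q + s) = powL (invL w) (((r+1 : ℕ) : ℤ) * q + -s) := by
      rw [← powL_neg w]
      congr 1
      rw [Int.negSucc_eq]
      push_cast
      ring
    have h3 : powL w (Int.negSucc r) = powL (invL w) ((r+1 : ℕ) : ℤ) := rfl
    rw [h2, h3, ← powL_neg w s]
    exact h1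

theorem permL_zpow (w : List (Bool × ℕ)) (n : ℤ) : permL (powL w n) = (permL w) ^ n := by
  have h1 : permL (invL w) = (permL w)⁻¹ := eq_inv_of_mul_eq_one_right (permL_inv w)
  have h2 : ∀ (v : List (Bool × ℕ)) (n : ℕ), permL (List.replicate n v).flatten = (permL v) ^ n := by
    intro v n
    induction n with
    | zero => rfl
    | succ n ih => 
      rw [List.replicate_succ, List.flatten_cons, permL_append, ih, pow_succ']
  rcases n with n | n
  · exact h2 w n
  · show permL (List.replicate (n+1) (invL w)).flatten = _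
    rw [h2, h1, zpow_negSucc, inv_pow]

/-! ### splitting a concatenation -/

theorem flatten_split {α : Type*} {k : ℕ} (g : Fin k → List α) (i : Fin k) :
    (List.ofFn g).flatten = ((List.ofFn g).take i).flatten ++ (g i ++ ((List.ofFn g).drop (i+1)).flatten) := by
  conv_lhs => rw [← List.take_append_drop i (List.ofFn g), List.flatten_append]
  congr 1
  have h1 : (i : ℕ) < (List.ofFn g).length := by simp
  rw [List.drop_eq_getElem_cons h1, List.flatten_cons]
  congr 1
  simp

end Pool.Agent.N571.TLF
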