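import Pool.Agent.N571.TLF.Fam

/-!
# The recurrences for the two primes `A + 1` and `A - 1`
-/

set_option autoImplicit false

namespace Pool.Agent.N571.TLF

open Finset LaurentPolynomial Pool.Agent.H891R2.Jones Pool.Agent.W639.RB Pool.Agent.Y463.SK

/-- an annihilating polynomial of a pure braid gives a recurrence -/
theorem recur_of {m : ℕ} (hm : 0 < m) (w : List (Bool × ℕ)) (hw' : ∀ x ∈ w, x.2 + 1 < m)
    (hp : permL w = 1) (c : ℤ) (p : Polynomial ℤ[T;T⁻¹]) 
    (hp4 : Polynomial.aeval ((T (-3 * c) : ℤ[T;T⁻¹]) • bb m w - 1) p = 0) 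
    (O : Outer m) (v : List (Bool × ℕ)) (hv : ∀ x ∈ v, x.2 + 1 < m) (hcO : costS w (pat O.up) = c) : 
    Polynomial.aeval (Dl ℤ[T;T⁻¹]) p (fun z => ff O (powL w z ++ v)) = 0 := by
  set u : ℤ[T;T⁻¹] := T (-3 * c) with hu
  set f : ℤ → ℤ[T;T⁻¹] := fun n => ff O (powL w n ++ v) with hf
  set X : ℤ → BB m := fun n => (T (-3 * (n * c)) : ℤ[T;T⁻¹]) • bb m (powL w n) with hX
  set b : BB m := u • bb m w with hb
  have hXs : ∀ n, X (n+1) = b * X n := by
    intro n
    simp only [hX, hb]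
    rw [bb_pow_succ w hw' n, smul_mul_smul_comm, hu, ← T_add]
    congr 2
    ring
  set K : {N : ℕ // 3 ≤ N} → ℂ := fun N => (if Even (owr O + costS v (pat O.up)) then (1 : ℂ) else -1) * 
        (Ar N.1) ^ (-3 * (owr O + costS v (pat O.up))) with hK
  have hpow : ∀ (N : {N : ℕ // 3 ≤ N}) (k : ℕ) (n : ℤ), 
      (N.1 : ℂ) * ev N.1 N.2 (((Dl ℤ[T;T⁻¹]) ^ k) f n) = K N * Fn O N v ((b - 1) ^ k * X n) := by
    intro N k
    induction k with
    | zero =>
      intro n
      rw [pow_zero, pow_zero, one_mul]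
      have := key_formula hm O w hw' hp v hv N n
      rw [hcO] at this
      exact this
    | succ k ih =>
      intro n
      have h1 : ((Dl ℤ[T;T⁻¹]) ^ (k+1)) f n = 
          ((Dl ℤ[T;T⁻¹]) ^ k) f (n+1) - ((Dl ℤ[T;T⁻¹]) ^ k) f n := by
        rw [pow_succ', Module.End.mul_apply]
        rfl
      rw [h1, map_sub, mul_sub, ih (n+1), ih n, ← mul_sub, ← Fn_sub]
      congr 2
      rw [hXs, pow_succ]
      noncomm_ring
  funext n
  apply eq_zero_of_ev
  intro N hN
  have hNC : (N : ℂ) ≠ 0 := by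
    rw [Nat.cast_ne_zero]; omega
  have h1 : (N : ℂ) * ev N hN (Polynomial.aeval (Dl ℤ[T;T⁻¹]) p f n) = 
      K ⟨N, hN⟩ * Fn O ⟨N, hN⟩ v (Polynomial.aeval (b - 1) p * X n) := by
    rw [Polynomial.aeval_eq_sum_range, Polynomial.aeval_eq_sum_range, LinearMap.sum_apply, 
      Finset.sum_apply, map_sum, Finset.mul_sum, Finset.sum_mul]
    have h2 : ∀ (s : Finset ℕ) (g : ℕ → BB m), Fn O ⟨N, hN⟩ v (∑ i ∈ s, g i) = 
        ∑ i ∈ s, Fn O ⟨N, hN⟩ v (g i) := by
      classical
      intro s g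
      induction s using Finset.induction_on with
      | empty => simp [Fn_zero]
      | insert a s ha ih => rw [Finset.sum_insert ha, Finset.sum_insert ha, Fn_add, ih]
    rw [h2, Finset.mul_sum]
    refine Finset.sum_congr rfl fun i _ => ?_
    have h3 := hpow ⟨N, hN⟩ i n
    simp only at h3
    rw [smul_mul_assoc, Fn_smul, LinearMap.smul_apply, Pi.smul_apply, smul_eq_mul, map_mul, 
      mul_left_comm, h3]
    ring
  have hp5 : Polynomial.aeval (b - 1) p = 0 := hp4
  rw [hp5, zero_mul, Fn_zero, mul_zero] at h1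
  exact (mul_eq_zero.1 h1).resolve_left hNC

/-- for every pure braid there is a recurrence controlled by `π` -/
def Rec (π : ℤ[T;T⁻¹]) : Prop := ∀ {m : ℕ} (_ : 0 < m) (w : List (Bool × ℕ)) (off n : ℕ) (_ : 0 < n)
    (_ : off + n ≤ m) (_ : ∀ x ∈ w, off ≤ x.2 ∧ x.2 + 1 < off + n) (_ : permL w = 1) (c : ℤ)
    (_ : Even c), 
    ∃ p : Polynomial ℤ[T;T⁻¹], PD π (n.choose (n/2)) p ∧ 
      ∀ (O : Outer m) (v : List (Bool × ℕ)), (∀ x ∈ v, x.2 + 1 < m) → costS w (pat O.up) = c → 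
        Polynomial.aeval (Dl ℤ[T;T⁻¹]) p (fun z => ff O (powL w z ++ v)) = 0

theorem rec_plus : Rec (T 1 + 1) := fun hm w off n hn hoff hw hp c hc => 
  recur hm w off n hn hoff hw hp c hc

theorem ltr_neg {R B : Type*} [CommRing R] [Ring B] [Algebra R B] (A A' : R) (e : ℕ → B) (x : Bool × ℕ) :
    ltr (-A) (-A') e x = - ltr A A' e x := by
  unfold ltr
  split_ifs <;> simp only [neg_smul, neg_add]

theorem wd_neg {R B : Type*} [CommRing R] [Ring B] [Algebra R B] (A A' : R) (e : ℕ → B) 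
    (w : List (Bool × ℕ)) (hw : Even w.length) : wd (-A) (-A') e w = wd A A' e w := by
  have h1 : ∀ w : List (Bool × ℕ), wd (-A) (-A') e w = (-1) ^ w.length * wd A A' e w := by
    intro w
    unfold wd
    induction w with
    | nil => simp
    | cons x w ih =>
      rw [List.map_cons, List.prod_cons, ih, ltr_neg, List.map_cons, List.prod_cons, 
        List.length_cons, pow_succ]
      have h2 := (Commute.neg_one_left (ltr A A' e x)).pow_left w.length
      rw [neg_mul, ← mul_assoc, ← h2.eq]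
      simp only [mul_neg, mul_one, neg_mul, mul_assoc]
  rw [h1, hw.neg_one_pow, one_mul]

theorem dvd_T_sub (c : ℤ) : (-T 1 + 1 : ℤ[T;T⁻¹]) ∣ T c - 1 := by
  have h1 : ∀ n : ℕ, (-T 1 + 1 : ℤ[T;T⁻¹]) ∣ T (n : ℤ) - 1 := by
    intro n
    have h2 : (T (n : ℤ) : ℤ[T;T⁻¹]) = (T 1) ^ n := by rw [T_pow]; simp
    rw [h2]
    have h3 := sub_dvd_pow_sub_pow (T 1 : ℤ[T;T⁻¹]) 1 n
    rw [one_pow] at h3
    have h4 : (-T 1 + 1 : ℤ[T;T⁻¹]) = -(T 1 - 1) := by ring
    rw [h4, neg_dvd]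
    exact h3
  rcases c with n | n
  · exact h1 n
  · have h2 := h1 (n+1)
    have h3 : (T (Int.negSucc n) - 1 : ℤ[T;T⁻¹]) = - (T (Int.negSucc n) * (T ((n+1 : ℕ) : ℤ) - 1)) := by
      rw [mul_sub, ← T_add, Int.negSucc_eq]
      have : (-((n : ℤ) + 1) + ((n+1 : ℕ) : ℤ)) = 0 := by push_cast; ring
      rw [this, T_zero]
      ring
    rw [h3, dvd_neg]
    exact Dvd.dvd.mul_left h2 _

theorem rec_minus : Rec (-T 1 + 1) := by
  intro m hm w off n hn hoff hw hp c hc
  have hw' : ∀ x ∈ w, x.2 + 1 < m := fun x hx => by have := hw x hx; omega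
  obtain ⟨p, hp1, hp4⟩ := exists_polyB (A := (-T 1 : ℤ[T;T⁻¹])) (A' := -T (-1)) 
    (by rw [neg_mul_neg]; exact T_mul_inv) (by rw [neg_sq, neg_sq])
    (isTLr_EB m) w off n hn hoff hw hp (T (-3 * c)) (dvd_T_sub _)
  refine ⟨p, hp1, fun O v hv hcO => recur_of hm w hw' hp c p ?_ O v hv hcO⟩
  rw [wd_neg _ _ _ _ (even_length w hw' hp)] at hp4
  exact hp4

theorem pim_ne : (-T 1 + 1 : ℤ[T;T⁻¹]) ≠ 0 := by
  intro h
  have h1 := congrArg (fun f : ℤ[T;T⁻¹] => LaurentPolynomial.eval₂ (RingHom.id ℤ) (-1 : ℤˣ) f) h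
  simp only [map_add, map_one, map_zero, map_neg, LaurentPolynomial.eval₂_T] at h1
  simp at h1

/-- the recurrence in the direction of the `i`-th exponent -/
theorem dirG {m k : ℕ} {π : ℤ[T;T⁻¹]} (hπ : Rec π) (hm : 0 < m) (O : Outer m) {Q : Type} (W : Fin k → List (Bool × ℕ)) 
    (V : Q → Fin k → List (Bool × ℕ)) (V0 : Fin k → List (Bool × ℕ)) 
    (hW : ∀ i, ∀ x ∈ W i, x.2 + 1 < m) (hV : ∀ q i, ∀ x ∈ V q i, x.2 + 1 < m) 
    (hV0' : ∀ l, ∀ y ∈ V0 l, y.2 + 1 < m)
    (hp : ∀ i, permL (W i) = 1) (hV0 : ∀ q i, permL (V q i) = permL (V0 i)) 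
    (i : Fin k) (off n : ℕ) (hn : 0 < n) (hoff : off + n ≤ m) 
    (hw : ∀ x ∈ W i, off ≤ x.2 ∧ x.2 + 1 < off + n) :
    ∃ p : Polynomial ℤ[T;T⁻¹], PD π (n.choose (n/2)) p ∧ 
      Polynomial.aeval (Sf ℤ[T;T⁻¹] Q (Pi.single i 1) - 1) p (fun x => ff O (word W (V x.1) x.2)) = 0 := by
  set c : ℤ := costS (W i) (pat (draw O ((List.ofFn V0).take i).flatten).up) with hc
  have hce : Even c := even_cost (W i) (hW i) (hp i) _
  obtain ⟨p, hp1, hp2⟩ := hπ hm (W i) off n hn hoff hw (hp i) c hce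
  refine ⟨p, hp1, ?_⟩
  funext x
  set G : Q × (Fin k → ℤ) → ℤ[T;T⁻¹] := fun x => ff O (word W (V x.1) x.2) with hG
  have h1 := diag G (Pi.single i 1) p x 0
  have h2 : (x.1, x.2 + (0 : ℤ) • (Pi.single i 1 : Fin k → ℤ)) = x := by simp
  rw [h2] at h1
  rw [← h1]
  -- the word
  set g : ℤ → Fin k → List (Bool × ℕ) := fun z l => 
    powL (W l) ((x.2 + z • (Pi.single i 1 : Fin k → ℤ)) l) ++ V x.1 l with hg
  have hgl : ∀ z, ∀ l, l ≠ i → g z l = powL (W l) (x.2 l) ++ V x.1 l := by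
    intro z l hl
    simp only [hg, Pi.add_apply, Pi.smul_apply, Pi.single_eq_of_ne hl, smul_zero, add_zero]
  have hgi : ∀ z, g z i = powL (W i) (x.2 i + z) ++ V x.1 i := by
    intro z
    simp [hg]
  set pre : List (Bool × ℕ) := ((List.ofFn (g 0)).take i).flatten with hpre
  set post : List (Bool × ℕ) := ((List.ofFn (g 0)).drop (i+1)).flatten with hpost
  have hpre' : ∀ z, ((List.ofFn (g z)).take i).flatten = pre := by
    intro z
    rw [hpre]
    congr 1
    apply List.ext_getElem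
    · simp
    · intro n h1 h2
      simp only [List.getElem_take, List.getElem_ofFn]
      have h3 : n < i := by
        have := h1
        simp only [List.length_take, List.length_ofFn] at this
        omega
      rw [hgl z _ (fun h => by have := congrArg Fin.val h; simp only at this; omega), 
        hgl 0 _ (fun h => by have := congrArg Fin.val h; simp only at this; omega)]
  have hpost' : ∀ z, ((List.ofFn (g z)).drop (i+1)).flatten = post := by
    intro z
    rw [hpost]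
    congr 1
    apply List.ext_getElem
    · simp
    · intro n h1 h2
      simp only [List.getElem_drop, List.getElem_ofFn]
      rw [hgl z _ (fun h => by have := congrArg Fin.val h; simp only at this; omega), 
        hgl 0 _ (fun h => by have := congrArg Fin.val h; simp only at this; omega)]
  have hword : ∀ z, G (x.1, x.2 + z • (Pi.single i 1 : Fin k → ℤ)) = 
      ff (draw O pre) (powL (W i) (z + x.2 i) ++ (V x.1 i ++ post)) := by
    intro z
    have h3 : word W (V x.1) (x.2 + z • (Pi.single i 1 : Fin k → ℤ)) = (List.ofFn (g z)).flatten := rfl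
    simp only [hG]
    rw [h3, flatten_split (g z) i, hpre', hpost', hgi, List.append_assoc, add_comm (x.2 i) z]
    unfold ff
    rw [draw_append]
  have hlt : ∀ l, ∀ y ∈ g 0 l, y.2 + 1 < m := by
    intro l y hy
    rcases List.mem_append.1 hy with hy | hy
    · exact powL_lt (hW l) _ y hy
    · exact hV x.1 l y hy
  have hcost : costS (W i) (pat (draw O pre).up) = c := by
    rw [hc, (draw_writhe pre O (flat_lt hlt (fun y hy => List.mem_of_mem_take hy))).2]
    rw [(draw_writhe _ O (flat_lt hV0' (fun y hy => List.mem_of_mem_take hy))).2]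
    congr 3
    rw [hpre]
    apply permL_flat
    intro l
    rw [hg]
    simp only
    rw [permL_append, permL_powL (hp l), one_mul, hV0]
  have h5 := hp2 (draw O pre) (V x.1 i ++ post) (by
    intro y hy
    rcases List.mem_append.1 hy with hy | hy
    · exact hV x.1 i y hy
    · exact flat_lt hlt (fun y hy => List.mem_of_mem_drop hy) y hy) hcost
  have h6 : (fun z : ℤ => G (x.1, x.2 + z • (Pi.single i 1 : Fin k → ℤ))) = 
      fun z => (fun z => ff (draw O pre) (powL (W i) z ++ (V x.1 i ++ post))) (z + x.2 i) := by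
    funext z
    exact hword z
  rw [h6]
  refine (shiftD (fun z => ff (draw O pre) (powL (W i) z ++ (V x.1 i ++ post))) p (x.2 i) 0).trans ?_
  rw [h5]
  rfl

/-- the recurrence for all the exponents together -/
theorem allG {m k : ℕ} {π : ℤ[T;T⁻¹]} (h0 : π ≠ 0) (hπ : Rec π) (hm : 0 < m) (O : Outer m) {Q : Type} (W : Fin k → List (Bool × ℕ)) 
    (V : Q → Fin k → List (Bool × ℕ)) (V0 : Fin k → List (Bool × ℕ)) 
    (hV : ∀ q i, ∀ x ∈ V q i, x.2 + 1 < m) 
    (hV0' : ∀ l, ∀ y ∈ V0 l, y.2 + 1 < m)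
    (hp : ∀ i, permL (W i) = 1) (hV0 : ∀ q i, permL (V q i) = permL (V0 i)) 
    (off n : Fin k → ℕ) (hn : ∀ i, 0 < n i) (hoff : ∀ i, off i + n i ≤ m) 
    (hw : ∀ i, ∀ x ∈ W i, off i ≤ x.2 ∧ x.2 + 1 < off i + n i) (I : Finset (Fin k)) : 
    ∃ P : Polynomial ℤ[T;T⁻¹], PD π (∏ i ∈ I, (n i).choose (n i/2)) P ∧ 
      ∀ (q : Q) (t : Fin k → ℤ), Polynomial.aeval (Dl ℤ[T;T⁻¹]) P 
        (fun z : ℤ => ff O (word W (V q) (t + z • ∑ i ∈ I, Pi.single i 1))) = 0 := by
  have hW : ∀ i, ∀ x ∈ W i, x.2 + 1 < m := fun i x hx => by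
    have h1 := hw i x hx
    have h2 := hoff i
    omega
  obtain ⟨P, hP1, hP2⟩ := allPD (π := π) (fun x hx => 
    (mul_eq_zero.1 hx).resolve_left h0) (fun x : Q × (Fin k → ℤ) => ff O (word W (V x.1) x.2)) 
    (fun i => (n i).choose (n i/2)) I (fun i _ => 
      dirG hπ hm O W V V0 hW hV hV0' hp hV0 i (off i) (n i) (hn i) (hoff i) (hw i))
  refine ⟨P, hP1, fun q t => ?_⟩
  funext z
  have h1 := diag (fun x : Q × (Fin k → ℤ) => ff O (word W (V x.1) x.2)) 
    (∑ i ∈ I, Pi.single i 1) P (q, t) z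
  simp only at h1
  rw [h1, hP2]
  rfl

/-- one direction in the parameter space -/
theorem lineG {m k r : ℕ} {π : ℤ[T;T⁻¹]} (h0 : π ≠ 0) (hπ : Rec π) (hm : 0 < m) (O : Outer m) (w v : Fin k → List (Letter m)) 
    (Λ : Fin k → Fin r → ℤ) (s : Fin k → ℤ) (hΛ : ∀ i j, IsPure (powW (w i) (Λ i j))) 
    (off n : Fin k → ℕ) (hn : ∀ i, 0 < n i) (hoff : ∀ i, off i + n i ≤ m) 
    (hw : ∀ i, ∀ x ∈ w i, off i ≤ x.2 ∧ (x.2 : ℕ) + 1 < off i + n i) 
    (j : Fin r) :
    ∃ P : Polynomial ℤ[T;T⁻¹], PD π (∏ i with Λ i j ≠ 0, (n i).choose (n i / 2)) P ∧ 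
      ∀ q : Fin r → ℤ, Polynomial.aeval (Dl ℤ[T;T⁻¹]) P 
        (fun z : ℤ => (dia O (multiW w v (expo Λ s (q + z • Pi.single j 1)))).fPoly) = 0 := by
  classical
  set W : Fin k → List (Bool × ℕ) := fun i => powL (toN (w i)) (Λ i j) with hW
  set V : (Fin r → ℤ) → Fin k → List (Bool × ℕ) := fun q i => 
    powL (toN (w i)) (expo Λ s q i) ++ toN (v i) with hV
  set V0 : Fin k → List (Bool × ℕ) := fun i => powL (toN (w i)) (s i) ++ toN (v i) with hV0
  have hpure : ∀ i j, (permL (toN (w i))) ^ (Λ i j) = 1 := by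
    intro i j
    rw [← permL_zpow, ← toN_pow]
    exact permL_of_pure (hΛ i j)
  have hwN : ∀ i, ∀ x ∈ toN (w i), off i ≤ x.2 ∧ x.2 + 1 < off i + n i := by
    intro i x hx
    obtain ⟨y, hy, rfl⟩ := List.mem_map.1 hx
    exact hw i y hy
  have hpow : ∀ (i : Fin k) (z : ℤ), ∀ x ∈ powL (toN (w i)) z, off i ≤ x.2 ∧ x.2 + 1 < off i + n i := by
    intro i z x hx
    rcases z with z | z
    · obtain ⟨l, hl, hx⟩ := List.mem_flatten.1 hx
      rw [(List.mem_replicate.1 hl).2] at hx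
      exact hwN i x hx
    · obtain ⟨l, hl, hx⟩ := List.mem_flatten.1 hx
      rw [(List.mem_replicate.1 hl).2] at hx
      unfold invL at hx
      rw [List.mem_reverse, List.mem_map] at hx
      obtain ⟨y, hy, rfl⟩ := hx
      exact hwN i y hy
  have hVlt : ∀ (z : ℤ) (i : Fin k), ∀ x ∈ powL (toN (w i)) z ++ toN (v i), x.2 + 1 < m := by
    intro z i x hx
    rcases List.mem_append.1 hx with hx | hx
    · exact powL_lt (toN_lt _) _ x hx
    · exact toN_lt _ x hx
  obtain ⟨P, hP1, hP2⟩ := allG h0 hπ hm O W V V0 (fun q i => hVlt _ i) (fun i => hVlt _ i) 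
    (fun i => by rw [hW]; simp only; rw [permL_zpow, hpure])
    (fun q i => by
      simp only [hV, hV0]
      rw [permL_append, permL_append, permL_zpow, permL_zpow, zpow_expo _ _ _ _ _ (hpure i)])
    off n hn hoff (fun i => hpow i _) (univ.filter (fun i => Λ i j ≠ 0))
  refine ⟨P, hP1, fun q => ?_⟩
  have hval : ∀ z : ℤ, (dia O (multiW w v (expo Λ s (q + z • Pi.single j 1)))).fPoly = 
      ff O (word W (V q) (0 + z • ∑ i ∈ univ.filter (fun i => Λ i j ≠ 0), Pi.single i 1)) := by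
    intro z
    rw [dia_fPoly, toN_multi]
    apply ff_congr hm O
    · refine flat_lt (g := fun i => powL (toN (w i)) (expo Λ s (q + z • Pi.single j 1) i) ++ toN (v i)) 
        (fun i => hVlt _ i) (fun y hy => hy)
    · refine flat_lt (g := fun i => powL (W i) ((0 + z • ∑ i ∈ univ.filter (fun i => Λ i j ≠ 0), 
        (Pi.single i 1 : Fin k → ℤ)) i) ++ V q i) (fun i x hx => ?_) (fun y hy => hy)
      rcases List.mem_append.1 hx with hx | hx
      · exact powL_lt (powL_lt (toN_lt _) _) _ x hx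
      · exact hVlt _ i x hx
    · unfold word
      apply Eqv.flatten
      intro i
      rw [expo_add]
      have h1 : (0 + z • ∑ i ∈ univ.filter (fun i => Λ i j ≠ 0), (Pi.single i 1 : Fin k → ℤ)) i = 
          if Λ i j ≠ 0 then z else 0 := by
        rw [Pi.add_apply, Pi.zero_apply, zero_add, Pi.smul_apply, Finset.sum_apply, 
          Finset.sum_filter]
        have h2 : ∀ l : Fin k, (if Λ l j ≠ 0 then (Pi.single l 1 : Fin k → ℤ) i else 0) = 
            if l = i then (if Λ i j ≠ 0 then 1 else 0) else 0 := by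
          intro l
          by_cases hl : l = i
          · subst hl; simp
          · rw [if_neg hl, Pi.single_eq_of_ne (Ne.symm hl)]; simp
        rw [Finset.sum_congr rfl (fun l _ => h2 l), Finset.sum_ite_eq', if_pos (Finset.mem_univ _)]
        split_ifs <;> simp
      rw [h1]
      simp only [hW, hV]
      rw [← List.append_assoc]
      refine Eqv.append ?_ (Eqv.refl _)
      by_cases h3 : Λ i j = 0
      · rw [if_neg (not_not.2 h3), h3, zero_mul, zero_add]
        exact Eqv.refl _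
      · rw [if_pos h3]
        exact powL_mulZ (toN_lt _) (Λ i j) (expo Λ s q i) z
  simp only [hval]
  exact hP2 q 0


end Pool.Agent.N571.TLF
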