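import Pool.Agent.N571.TLF.Count
import Pool.Agent.N571.TLF.Act
import Pool.Agent.N571.TLF.CH

/-!
# Annihilating polynomials of degree `binom(m, ⌊m/2⌋)` for elements of the Temperley–Lieb algebra
-/

set_option autoImplicit false

namespace Pool.Agent.N571.TLF

open Pool.Agent.Y463.SK Finset Polynomial

section
variable {R B : Type*} [CommRing R] [Ring B] [Algebra R B] {m : ℕ} {d : R} {e : ℕ → B}

theorem Lst_In : ∀ (r p j n : ℕ) (x : B), p + r + 1 = m → x ∈ Lst e r p j n → In m e n j p x := by
  intro r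
  induction r with
  | zero =>
    intro p j n x hp hx
    rcases n with _ | n
    · simp only [Lst, List.mem_singleton] at hx
      subst hx; exact In.nil _ _
    · simp [Lst] at hx
  | succ r ih =>
    intro p j n x hp hx
    rcases n with _ | n
    · rw [Lst] at hx
      exact (ih (p+1) j 0 x (by omega) hx).mono (by omega)
    · rw [Lst, List.mem_append] at hx
      rcases hx with hx | hx
      · exact (ih (p+1) j (n+1) x (by omega) hx).mono (by omega)
      · split_ifs at hx with h1
        · obtain ⟨y, hy, rfl⟩ := List.mem_map.1 hx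
          exact In.cons _ _ _ _ _ le_rfl h1 (by omega) (ih (p+1) (j+1) n y (by omega) hy)
        · simp at hx

/-- one step of the filtration -/
theorem step (h : IsTLr m d e) (h0 : ∀ i, m ≤ i + 1 → e i = 0) 
    (hgen : Algebra.adjoin R (Set.range e) = ⊤) (hm : 0 < m) {π : R} {a b : B} (hab : a = π • b) 
    (k : ℕ) : ∃ p, PD π (Lst e (m-1) 0 0 k).length p ∧ 
      ∀ x ∈ VV R m e k, aeval a p * x ∈ JJ R e (k+1) := by
  set J := JJ R e (k+1) with hJ
  have hmap : J ≤ J.comap (LinearMap.mulLeft R a) := fun x hx => JJ_left hx a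
  set g : Module.End R (B ⧸ J) := J.mapQ J (LinearMap.mulLeft R a) hmap with hg
  set l : List (B ⧸ J) := (Lst e (m-1) 0 0 k).map J.mkQ with hl
  have hspan : Submodule.span R {x | x ∈ l} = (VV R m e k).map J.mkQ := by
    unfold VV
    rw [Submodule.map_sup, ← hJ]
    have h1 : J.map J.mkQ = ⊥ := by
      rw [← LinearMap.le_ker_iff_map, Submodule.ker_mkQ]
    rw [h1, sup_bot_eq, Submodule.map_span]
    congr 1
    ext z
    constructor
    · intro hz
      obtain ⟨x, hx, rfl⟩ := List.mem_map.1 hz
      exact ⟨x, Lst_In _ _ _ _ _ (by omega) hx, rfl⟩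
    · rintro ⟨x, hx, rfl⟩
      exact List.mem_map.2 ⟨x, mem_Lst _ _ _ _ _ (by omega) hx, rfl⟩
  have hleft : ∀ c x : B, x ∈ VV R m e k → c * x ∈ VV R m e k := fun c x hx => 
    VV_left h h0 k (by rw [hgen]; trivial) x hx
  obtain ⟨p, hp1, hp2⟩ := exists_PD (π := π) g l (by
    intro z hz
    rw [hspan] at hz
    obtain ⟨x, hx, rfl⟩ := hz
    refine ⟨J.mkQ (b * x), ?_, ?_⟩
    · rw [hspan]; exact ⟨_, hleft b x hx, rfl⟩
    · rw [hg, Submodule.mkQ_apply, Submodule.mapQ_apply, LinearMap.mulLeft_apply, hab, smul_mul_assoc,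
        ← Submodule.mkQ_apply, map_smul])
  refine ⟨p, ?_, ?_⟩
  · rw [hl, List.length_map] at hp1
    exact hp1
  · intro x hx
    have h1 := hp2 (J.mkQ x) (by rw [hspan]; exact ⟨x, hx, rfl⟩)
    have h2 : ∀ q : R[X], aeval g q (J.mkQ x) = J.mkQ (aeval a q * x) := by
      intro q
      induction q using Polynomial.induction_on' with
      | add p q hp hq => rw [map_add, LinearMap.add_apply, hp, hq, map_add, add_mul, map_add]
      | monomial n r =>
        rw [aeval_monomial, aeval_monomial, Module.End.mul_apply, Module.algebraMap_end_apply]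
        have h3 : (g ^ n) (J.mkQ x) = J.mkQ (a ^ n * x) := by
          induction n with
          | zero => simp
          | succ n ih => 
            rw [pow_succ', Module.End.mul_apply, ih, pow_succ', mul_assoc]
            rfl
        rw [h3, ← map_smul, mul_assoc, ← Algebra.smul_def]
    rw [h2, Submodule.mkQ_apply, Submodule.Quotient.mk_eq_zero] at h1
    exact h1

theorem filt (h : IsTLr m d e) (h0 : ∀ i, m ≤ i + 1 → e i = 0) 
    (hgen : Algebra.adjoin R (Set.range e) = ⊤) (hm : 0 < m) {π : R} {a b : B} (hab : a = π • b) :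
    ∃ p, PD π (m.choose (m/2)) p ∧ aeval a p = 0 := by
  have key : ∀ n, n ≤ m/2 + 1 → ∃ p, PD π (∑ k ∈ range n, (Lst e (m-1) 0 0 k).length) p ∧ 
      aeval a p ∈ JJ R e n := by
    intro n
    induction n with
    | zero =>
      intro _
      refine ⟨1, by simpa using PD.one, ?_⟩
      rw [map_one]
      exact uu_mem_JJ 0
    | succ n ih =>
      intro hn
      obtain ⟨p, hp1, hp2⟩ := ih (by omega)
      obtain ⟨q, hq1, hq2⟩ := step h h0 hgen hm hab n
      refine ⟨p * q, ?_, ?_⟩
      · rw [Finset.sum_range_succ]; exact hp1.mul hq1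
      · have h1 : ∀ y ∈ JJ R e n, aeval a q * y ∈ JJ R e (n+1) := by
          intro y hy
          unfold JJ at hy
          induction hy using Submodule.span_induction with
          | mem x hx =>
            obtain ⟨s, t, rfl⟩ := hx
            have h2 : s * uu e n ∈ VV R m e n := 
              VV_left h h0 n (by rw [hgen]; trivial) _ (uu_VV h (by omega))
            rw [← mul_assoc]
            exact JJ_right (hq2 _ h2) t
          | zero => rw [mul_zero]; exact Submodule.zero_mem _
          | add a b _ _ ha hb => rw [mul_add]; exact Submodule.add_mem _ ha hb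
          | smul r a _ ha => rw [mul_smul_comm]; exact Submodule.smul_mem _ _ ha
        rw [mul_comm p q, map_mul]
        exact h1 _ hp2
  obtain ⟨p, hp1, hp2⟩ := key (m/2 + 1) le_rfl
  refine ⟨p, hp1.mono ?_, ?_⟩
  · refine (sum_Lst e (m-1) 0 0 _ (by omega)).trans ?_
    have e1 : 0 + 1 - 2*0 = 1 := rfl
    rw [e1]
    obtain ⟨r, rfl⟩ : ∃ r, m = r + 1 := ⟨m - 1, by omega⟩
    rw [Nat.add_sub_cancel, ← M_zero (r+1), M]
  · have h1 : JJ R e (m/2 + 1) = ⊥ := by
      unfold JJ
      rw [Submodule.span_eq_bot]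
      rintro x ⟨s, t, rfl⟩
      rw [uu, h0 _ (by omega)]
      simp
    rw [h1, Submodule.mem_bot] at hp2
    exact hp2

end

section modpi
variable {R B : Type*} [CommRing R] [Ring B] [Algebra R B] {m : ℕ} {A A' d : R} {e : ℕ → B}

/-- **The annihilating polynomial of a pure braid.** -/
theorem exists_polyF (hA : A * A' = 1) (hd : d = - A ^ 2 - A' ^ 2) (h : IsTLr m d e) (hm : 0 < m) 
    (h0 : ∀ i, m ≤ i + 1 → e i = 0)
    (w : List (Bool × ℕ)) (hw : ∀ x ∈ w, x.2 + 1 < m) 
    (hp : (w.map (fun x => Equiv.swap x.2 (x.2+1))).prod = 1) (u : R) (hu : A + 1 ∣ u - 1) :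
    ∃ p : R[X], PD (A + 1) (m.choose (m/2)) p ∧ aeval (u • wd A A' e w - 1) p = 0 := by
  classical
  set S0 := Algebra.adjoin R (Set.range e) with hS0
  let e' : ℕ → S0 := fun i => ⟨e i, Algebra.subset_adjoin ⟨i, rfl⟩⟩
  have h' : IsTLr m d e' := by
    refine ⟨?_, ?_, ?_, ?_⟩
    · intro i hi; exact Subtype.ext (h.sq i hi)
    · intro i hi; exact Subtype.ext (h.up i hi)
    · intro i hi; exact Subtype.ext (h.down i hi)
    · intro i j hj hij; exact Subtype.ext (h.far i j hj hij)
  obtain ⟨b, hb⟩ := wd_mod hA hd h' w hw hp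
  have hcoe : ((wd A A' e' w : S0) : B) = wd A A' e w := by
    unfold wd
    have : ∀ v : List (Bool × ℕ), (((v.map (ltr A A' e')).prod : S0) : B) = 
        (v.map (ltr A A' e)).prod := by
      intro v
      induction v with
      | nil => rfl
      | cons x v ih =>
        rw [List.map_cons, List.map_cons, List.prod_cons, List.prod_cons, Subalgebra.coe_mul, ih]
        congr 1
        unfold ltr
        split_ifs <;> rfl
    exact this w
  have hgen : Algebra.adjoin R (Set.range e') = ⊤ := by
    rw [← Algebra.adjoin_adjoin_coe_preimage (R := R) (s := Set.range e)]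
    congr 1
    ext x
    constructor
    · rintro ⟨i, rfl⟩; exact ⟨i, rfl⟩
    · rintro ⟨i, hi⟩; exact ⟨i, Subtype.ext hi⟩
  obtain ⟨c, hc⟩ := hu
  set a : S0 := u • wd A A' e' w - 1 with ha
  have ha' : a = (A + 1) • (c • wd A A' e' w + b) := by
    have h1 : u = 1 + (A + 1) * c := by linear_combination hc
    rw [ha, smul_add, ← hb, h1, add_smul, one_smul, smul_smul]
    abel
  obtain ⟨p, hp1, hp2⟩ := filt h' (fun i hi => Subtype.ext (h0 i hi)) hgen hm ha'
  refine ⟨p, hp1, ?_⟩
  have h2 := congrArg S0.val hp2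
  rw [map_zero, ← aeval_algHom_apply] at h2
  have h3 : S0.val a = u • wd A A' e w - 1 := by
    rw [ha, map_sub, map_smul, map_one]
    rw [← hcoe]; rfl
  rwa [h3] at h2

/-- the same for a word on the strands `off, …, off + n - 1` -/
theorem exists_polyB (hA : A * A' = 1) (hd : d = - A ^ 2 - A' ^ 2) (h : IsTLr m d e) 
    (w : List (Bool × ℕ)) (off n : ℕ) (hn : 0 < n) (hoff : off + n ≤ m)
    (hw : ∀ x ∈ w, off ≤ x.2 ∧ x.2 + 1 < off + n) 
    (hp : (w.map (fun x => Equiv.swap x.2 (x.2+1))).prod = 1) (u : R) (hu : A + 1 ∣ u - 1) :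
    ∃ p : R[X], PD (A + 1) (n.choose (n/2)) p ∧ aeval (u • wd A A' e w - 1) p = 0 := by
  set f : ℕ → B := fun i => if i + 1 < n then e (off + i) else 0 with hf
  have hf1 : ∀ i, i + 1 < n → f i = e (off + i) := fun i hi => if_pos hi
  have h' : IsTLr n d f := by
    refine ⟨?_, ?_, ?_, ?_⟩
    · intro i hi; rw [hf1 i hi]; exact h.sq (off + i) (by omega)
    · intro i hi
      rw [hf1 i (by omega), hf1 (i+1) (by omega)]; exact h.up (off + i) (by omega)
    · intro i hi
      rw [hf1 i (by omega), hf1 (i+1) (by omega)]; exact h.down (off + i) (by omega)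
    · intro i j hj hij
      rw [hf1 i (by omega), hf1 j (by omega)]; exact h.far (off + i) (off + j) (by omega) (by omega)
  set w' : List (Bool × ℕ) := w.map (fun x => (x.1, x.2 - off)) with hw'
  have h1 : ∀ x ∈ w', x.2 + 1 < n := by
    intro x hx
    obtain ⟨y, hy, rfl⟩ := List.mem_map.1 hx
    have := hw y hy
    simp only
    omega
  have h2 : wd A A' f w' = wd A A' e w := by
    unfold wd
    rw [hw', List.map_map]
    congr 1
    refine List.map_congr_left fun x hx => ?_
    have h3 := hw x hx
    have h4 : f (x.2 - off) = e x.2 := by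
      rw [hf1 _ (by omega)]
      congr 1
      omega
    simp only [Function.comp_apply, ltr, h4]
  have h3 : (w'.map (fun x => Equiv.swap x.2 (x.2+1))).prod = 1 := by
    -- conjugate by the shift
    have h5 : ∀ v : List (Bool × ℕ), (∀ x ∈ v, off ≤ x.2) → ∀ i : ℕ, 
        ((v.map (fun x => Equiv.swap x.2 (x.2+1))).prod : Equiv.Perm ℕ) (i + off) = 
        (((v.map (fun x => (x.1, x.2 - off))).map (fun x => Equiv.swap x.2 (x.2+1))).prod : 
          Equiv.Perm ℕ) i + off := by
      intro v
      induction v with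
      | nil => intro _ i; simp
      | cons x v ih =>
        intro hv i
        rw [List.map_cons, List.map_cons, List.map_cons, List.prod_cons, List.prod_cons, 
          Equiv.Perm.mul_apply, Equiv.Perm.mul_apply, ih (fun y hy => hv y (List.mem_cons_of_mem _ hy))]
        generalize ((List.map (fun x => Equiv.swap x.2 (x.2+1)) (v.map (fun x => (x.1, x.2 - off)))).prod :
          Equiv.Perm ℕ) i = t
        have hx := hv x List.mem_cons_self
        simp only
        rw [Equiv.swap_apply_def, Equiv.swap_apply_def]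
        split_ifs <;> omega
    ext i
    have h6 := h5 w (fun x hx => (hw x hx).1) i
    rw [hp, Equiv.Perm.one_apply] at h6
    rw [Equiv.Perm.one_apply]
    have h7 : ((w'.map (fun x => Equiv.swap x.2 (x.2+1))).prod : Equiv.Perm ℕ) i + off = i + off := 
      h6.symm
    omega
  obtain ⟨p, hp1, hp2⟩ := exists_polyF hA hd h' hn (fun i hi => if_neg (by omega)) w' h1 h3 u hu
  rw [h2] at hp2
  exact ⟨p, hp1, hp2⟩

end modpi

end Pool.Agent.N571.TLF
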