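import Pool.Agent.N571.TLF.Pi
import Pool.Agent.N571.TLF.Closed
import Pool.Agent.H832R3.VJ.Fin
import Pool.Agent.Y466.FT.Newton

/-!
# Vassiliev invariants of one order for all powers of braids
-/

set_option autoImplicit false

namespace Pool.Agent.N571.TLF

open Finset LaurentPolynomial Pool.Agent.H891R2.Jones Pool.Agent.W639.RB Pool.Agent.Y463.SK
  Pool.Agent.H832R3.VJ

/-! ### high differences are divisible by high powers -/

theorem dvd_diff {R : Type*} [CommRing R] {π : R} {n : ℕ} {P : Polynomial R} (hP : PD π n P) 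
    (f : ℤ → R) (hf : Polynomial.aeval (Dl R) P f = 0) (N : ℕ) (x : ℤ) : 
    π ^ (N + 1 - n) ∣ ((Dl R) ^ N) f x := by
  obtain ⟨hp, hn, hc⟩ := hP
  set D := P.natDegree with hD
  have hrec : ∀ (k : ℕ) (x : ℤ), ((Dl R) ^ (k + D)) f x = 
      - ∑ j ∈ range D, P.coeff j * ((Dl R) ^ (k + j)) f x := by
    intro k x
    have h1 : ((Dl R) ^ k * Polynomial.aeval (Dl R) P) f x = 0 := by
      rw [Module.End.mul_apply, hf, map_zero]; rfl
    rw [Polynomial.aeval_eq_sum_range, Finset.mul_sum, LinearMap.sum_apply, Finset.sum_apply, 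
      Finset.sum_range_succ, ← hD] at h1
    have h2 : ∀ j, ((Dl R ^ k * P.coeff j • Dl R ^ j) f x) = P.coeff j * (Dl R ^ (k + j)) f x := by
      intro j
      rw [mul_smul_comm, ← pow_add]
      rfl
    simp only [h2] at h1
    rw [hD, hp.coeff_natDegree, ← hD, one_mul] at h1
    linear_combination h1
  have key : ∀ N x, π ^ (N + 1 - D) ∣ ((Dl R) ^ N) f x := by
    intro N
    induction N using Nat.strong_induction_on with
    | _ N ih =>
      intro x
      rcases lt_or_ge N D with hk | hk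
      · have : N + 1 - D = 0 := by omega
        rw [this, pow_zero]
        exact one_dvd _
      · obtain ⟨l, rfl⟩ : ∃ l, N = l + D := ⟨N - D, by omega⟩
        rw [hrec l x]
        apply (Finset.dvd_sum _).neg_right
        intro j hj
        rw [Finset.mem_range] at hj
        have h1 := ih (l + j) (by omega) x
        have h2 := mul_dvd_mul (hc j) h1
        rw [← pow_add] at h2
        exact (pow_dvd_pow π (by omega)).trans h2
  exact (pow_dvd_pow π (by omega)).trans (key N x)

/-! ### moments -/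

theorem moment_zero_of_dvd {j M : ℕ} (hj : j < M) {F : ℤ[T;T⁻¹]} (h : (-T 1 + 1 : ℤ[T;T⁻¹]) ^ M ∣ F) : 
    moment j F = 0 := by
  obtain ⟨G, rfl⟩ := h
  have h1 : (-T 1 + 1 : ℤ[T;T⁻¹]) ^ M * G = (T 1 - 1) ^ M * ((-1) ^ M * G) := by
    have : (-T 1 + 1 : ℤ[T;T⁻¹]) = (T 1 - 1) * (-1) := by ring
    rw [this, mul_pow, mul_assoc]
  rw [h1]
  exact V7.moment_pow_mul M _ j hj

theorem moment_diff (j : ℕ) (f : ℤ → ℤ[T;T⁻¹]) (N : ℕ) (x : ℤ) : 
    (Pool.Agent.Y466.FT.d1^[N]) (fun z => ((moment j (f z) : ℤ) : ℚ)) x = 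
      ((moment j (((Dl ℤ[T;T⁻¹]) ^ N) f x) : ℤ) : ℚ) := by
  induction N generalizing f x with
  | zero => rfl
  | succ N ih =>
    rw [Function.iterate_succ_apply, pow_succ, Module.End.mul_apply, ← ih]
    refine congrFun (congrArg _ ?_) x
    funext z
    show ((moment j (f (z+1)) : ℤ) : ℚ) - ((moment j (f z) : ℤ) : ℚ) = 
      ((moment j (f (z+1) - f z) : ℤ) : ℚ)
    rw [moment_sub]
    push_cast
    rfl

/-- a function satisfies recurrences controlled by `A - 1` -/
def Tame {k : ℕ} (f : (Fin k → ℤ) → ℤ[T;T⁻¹]) : Prop := 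
  ∀ i : Fin k, ∃ (n : ℕ) (P : Polynomial ℤ[T;T⁻¹]), PD (-T 1 + 1) n P ∧ 
    ∀ q : Fin k → ℤ, Polynomial.aeval (Dl ℤ[T;T⁻¹]) P (fun z : ℤ => f (q + z • Pi.single i 1)) = 0

theorem dl_iter {k : ℕ} {A : Type*} [AddCommGroup A] (f : (Fin k → ℤ) → A) (i : Fin k) (N : ℕ) 
    (q : Fin k → ℤ) (x : ℤ) : 
    (Pool.Agent.Y466.FT.d1^[N]) (fun z : ℤ => f (q + z • Pi.single i 1)) x = 
      ((Pool.Agent.Y466.FT.dl i)^[N] f) (q + x • Pi.single i 1) := by
  induction N generalizing f x with
  | zero => rfl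
  | succ N ih =>
    rw [Function.iterate_succ_apply, Function.iterate_succ_apply, ← ih]
    refine congrFun (congrArg _ ?_) x
    funext z
    show f (q + (z+1) • Pi.single i 1) - f (q + z • Pi.single i 1) = 
      f (q + z • Pi.single i 1 + Pi.single i 1) - f (q + z • Pi.single i 1)
    rw [add_smul, one_smul, add_assoc]

theorem dl_comm {k : ℕ} {A : Type*} [AddCommGroup A] (f : (Fin k → ℤ) → A) (i j : Fin k) : 
    Pool.Agent.Y466.FT.dl i (Pool.Agent.Y466.FT.dl j f) = 
      Pool.Agent.Y466.FT.dl j (Pool.Agent.Y466.FT.dl i f) := by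
  funext q
  unfold Pool.Agent.Y466.FT.dl
  rw [add_right_comm q (Pi.single i 1) (Pi.single j 1)]
  abel

theorem dl_comm_iter {k : ℕ} {A : Type*} [AddCommGroup A] (f : (Fin k → ℤ) → A) (i j : Fin k) (N : ℕ) : 
    (Pool.Agent.Y466.FT.dl i)^[N] (Pool.Agent.Y466.FT.dl j f) = 
      Pool.Agent.Y466.FT.dl j ((Pool.Agent.Y466.FT.dl i)^[N] f) := by
  induction N generalizing f with
  | zero => rfl
  | succ N ih => rw [Function.iterate_succ_apply, Function.iterate_succ_apply, dl_comm, ih]

/-- bounded degrees in the single variables -/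
theorem PD_of_iter {k : ℕ} {A : Type*} [AddCommGroup A] : ∀ (S : ℕ) (N : Fin k → ℕ) 
    (f : (Fin k → ℤ) → A), ∑ i, N i = S → (∀ i, (Pool.Agent.Y466.FT.dl i)^[N i] f = fun _ => 0) → 
    Pool.Agent.Y466.FT.PD (S + 1) f := by
  intro S
  induction S with
  | zero =>
    intro N f hS hN i
    have h1 : N i = 0 := by
      have := (Finset.sum_eq_zero_iff.1 hS) i (Finset.mem_univ _)
      exact this
    have h2 := hN i
    rw [h1] at h2
    have h3 : f = fun _ => 0 := h2
    rw [h3]
    intro q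
    exact sub_self _
  | succ S ih =>
    intro N f hS hN i
    by_cases h1 : N i = 0
    · have h2 := hN i
      rw [h1] at h2
      have h3 : f = fun _ => 0 := h2
      rw [h3]
      have h4 : Pool.Agent.Y466.FT.dl i (fun _ : Fin k → ℤ => (0 : A)) = fun _ => 0 := by
        funext q
        exact sub_self _
      rw [h4]
      exact Pool.Agent.Y466.FT.PD.zero _
    · refine ih (Function.update N i (N i - 1)) (Pool.Agent.Y466.FT.dl i f) ?_ ?_
      · rw [Finset.sum_update_of_mem (Finset.mem_univ _)]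
        have h2 := Finset.add_sum_erase univ N (Finset.mem_univ i)
        rw [Finset.sdiff_singleton_eq_erase]
        omega
      · intro j
        by_cases hj : j = i
        · subst hj
          rw [Function.update_self, ← Function.iterate_succ_apply]
          have h2 : (N j - 1).succ = N j := by omega
          rw [h2]
          exact hN j
        · rw [Function.update_of_ne hj, dl_comm_iter, hN j]
          funext q
          exact sub_self _

theorem Tame.poly {k : ℕ} {f : (Fin k → ℤ) → ℤ[T;T⁻¹]} (hf : Tame f) (j : ℕ) : 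
    ∃ P : MvPolynomial (Fin k) ℚ, ∀ q : Fin k → ℤ, 
      ((moment j (f q) : ℤ) : ℚ) = MvPolynomial.eval (fun i => (q i : ℚ)) P := by
  choose n P hP hP' using hf
  obtain ⟨Q, -, hQ⟩ := Pool.Agent.Y466.FT.exists_poly k (∑ i, (n i + j)) 
    (fun q => ((moment j (f q) : ℤ) : ℚ)) (PD_of_iter _ (fun i => n i + j) _ rfl (fun i => by
      funext q
      have h1 := dl_iter (fun q => ((moment j (f q) : ℤ) : ℚ)) i (n i + j) q 0
      rw [zero_smul, add_zero] at h1
      have h2 := moment_diff j (fun z : ℤ => f (q + z • Pi.single i 1)) (n i + j) 0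
      have h3 := moment_zero_of_dvd (j := j) (M := n i + j + 1 - n i) (by omega) 
          (dvd_diff (hP i) _ (hP' i q) (n i + j) 0)
      rw [h3, Int.cast_zero] at h2
      exact h1.symm.trans h2))
  exact ⟨Q, hQ⟩

/-! ### Hilbert's basis theorem -/

/-- **Hilbert's basis theorem** for an increasing union of sets of polynomials. -/
theorem exists_order {σ : Type*} [Finite σ] (S : ℕ → Set (MvPolynomial σ ℚ))
    (mono : ∀ m n, m ≤ n → S m ⊆ S n) : ∃ d : ℕ, ∀ x : σ → ℚ,
      (∀ R ∈ S d, MvPolynomial.eval x R = 0) → ∀ n, ∀ R ∈ S n, MvPolynomial.eval x R = 0 := by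
  have hfg : (Submodule.span (MvPolynomial σ ℚ) (⋃ n, S n)).FG := IsNoetherian.noetherian _
  obtain ⟨T, hT, hT'⟩ := (Submodule.fg_span_iff_fg_span_finset_subset _).1 hfg
  have h1 : ∀ t ∈ T, ∃ n, t ∈ S n := fun t ht => Set.mem_iUnion.1 (hT ht)
  choose! N hN using h1
  refine ⟨T.sup N, fun x h n R hR => ?_⟩
  have h4 : Submodule.span (MvPolynomial σ ℚ) (T : Set (MvPolynomial σ ℚ)) ≤
      RingHom.ker (MvPolynomial.eval x) := Submodule.span_le.2 fun t ht => 
        h t (mono _ _ (Finset.le_sup ht) (hN t ht))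
  have h5 : R ∈ Submodule.span (MvPolynomial σ ℚ) (⋃ n, S n) :=
    Submodule.subset_span (Set.mem_iUnion.2 ⟨n, hR⟩)
  rw [hT'] at h5
  exact h4 h5

theorem eq_of_moments {F G : ℤ[T;T⁻¹]} (h : ∀ j, moment j F = moment j G) : F = G := by
  have h1 := eq_zero_of_moment (F - G).coeff.support.card (F - G) 1 (by rw [one_mul]) (by
    intro j _
    rw [moment_sub, h j, sub_self])
  rw [one_mul] at h1
  exact sub_eq_zero.1 h1

/-- **One order for two families.** -/
theorem Tame.order {k k' : ℕ} {f : (Fin k → ℤ) → ℤ[T;T⁻¹]} {f' : (Fin k' → ℤ) → ℤ[T;T⁻¹]}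
    (hf : Tame f) (hf' : Tame f') : ∃ d : ℕ, ∀ q q', 
      (∀ j ≤ d, moment j (f q) = moment j (f' q')) → f q = f' q' := by
  choose P hP using hf.poly
  choose P' hP' using hf'.poly
  set R : ℕ → MvPolynomial (Fin k ⊕ Fin k') ℚ := fun j => 
    MvPolynomial.rename Sum.inl (P j) - MvPolynomial.rename Sum.inr (P' j) with hR
  have hval : ∀ j q q', MvPolynomial.eval (Sum.elim (fun i => (q i : ℚ)) fun i => (q' i : ℚ)) (R j) = 
      ((moment j (f q) : ℤ) : ℚ) - ((moment j (f' q') : ℤ) : ℚ) := by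
    intro j q q'
    rw [hR]
    simp only
    rw [map_sub, MvPolynomial.eval_rename, MvPolynomial.eval_rename, hP, hP']
    rfl
  obtain ⟨d, hd⟩ := exists_order (fun n => {S | ∃ j ≤ n, S = R j}) (by
    rintro m n hmn S ⟨j, hj, rfl⟩
    exact ⟨j, hj.trans hmn, rfl⟩)
  refine ⟨d, fun q q' h => eq_of_moments fun j => ?_⟩
  have h1 := hd (Sum.elim (fun i => (q i : ℚ)) fun i => (q' i : ℚ)) (by
    rintro S ⟨j, hj, rfl⟩
    rw [hval, h j hj, sub_self]) j (R j) ⟨j, le_rfl, rfl⟩
  rw [hval] at h1
  exact_mod_cast sub_eq_zero.1 h1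

/-! ### all powers of braids -/

/-- the diagram with its finite set of marked points -/
def DD {m : ℕ} (O : Outer m) (w : List (Letter m)) : Dia := ⟨_, inferInstance, dia O w⟩

theorem permW_pow {m : ℕ} (w : List (Letter m)) (n : ℕ) : permW (powW w n) = (permW w) ^ n := by
  show permW (List.replicate n w).flatten = _
  induction n with
  | zero => rfl
  | succ n ih =>
    rw [List.replicate_succ, List.flatten_cons, pow_succ', ← ih]
    unfold permW
    rw [List.map_append, List.prod_append]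

theorem pure_factorial {m : ℕ} (w : List (Letter m)) : IsPure (powW w (m.factorial : ℕ)) := by
  unfold IsPure
  rw [permW_pow]
  have := pow_card_eq_one (x := permW w)
  rwa [Fintype.card_perm, Fintype.card_fin] at this

theorem tame_class {m k : ℕ} (hm : 0 < m) (O : Outer m) (w v : Fin k → List (Letter m)) (s : Fin k → ℤ) 
    (ρ : ℤ) (hρ : ∀ i, IsPure (powW (w i) ρ)) : 
    Tame (fun q : Fin k → ℤ => (dia O (multiW w v (fun i => ρ * q i + s i))).fPoly) := by
  intro i
  have hΛ : ∀ i j : Fin k, IsPure (powW (w i) (if i = j then ρ else 0)) := by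
    intro i j
    split_ifs
    · exact hρ i
    · exact rfl
  obtain ⟨P, hP, hP'⟩ := lineG pim_ne rec_minus hm O w v (fun i j => if i = j then ρ else 0) s hΛ 
    (fun _ => 0) (fun _ => m) (fun _ => hm) (fun _ => by simp) (fun i x _ => ⟨by simp, by
        have := x.2.2
        omega⟩) i
  refine ⟨_, P, hP, fun q => ?_⟩
  have h1 := hP' q
  have h2 : (fun z : ℤ => (dia O (multiW w v (expo (fun i j => if i = j then ρ else 0) s 
      (q + z • Pi.single i 1)))).fPoly) = 
      fun z : ℤ => (dia O (multiW w v (fun l => ρ * (q + z • Pi.single i 1 : Fin k → ℤ) l + s l))).fPoly := by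
    funext z
    have h3 : expo (fun i j => if i = j then ρ else 0) s (q + z • Pi.single i 1) = 
        fun l => ρ * (q + z • Pi.single i 1 : Fin k → ℤ) l + s l := by
      funext l
      unfold expo
      simp only [ite_mul, zero_mul]
      rw [Finset.sum_ite_eq, if_pos (Finset.mem_univ _)]
    rw [h3]
  rw [h2] at h1
  exact h1

/-- **Vassiliev invariants of one order for all powers.** -/
theorem uniform {m k m' k' : ℕ} (hm : 0 < m) (hm' : 0 < m') (O : Outer m) (w v : Fin k → List (Letter m)) 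
    (O' : Outer m') (w' v' : Fin k' → List (Letter m')) : ∃ d : ℕ, ∀ (n : Fin k → ℤ) (n' : Fin k' → ℤ), 
      (∀ j ≤ d, moment j (dia O (multiW w v n)).fPoly = moment j (dia O' (multiW w' v' n')).fPoly) → 
      (dia O (multiW w v n)).fPoly = (dia O' (multiW w' v' n')).fPoly := by
  have h1 := fun (s : Fin k → Fin m.factorial) (s' : Fin k' → Fin m'.factorial) => 
    (tame_class hm O w v (fun i => ((s i : ℕ) : ℤ)) _ (fun i => pure_factorial (w i))).order 
      (tame_class hm' O' w' v' (fun i => ((s' i : ℕ) : ℤ)) _ (fun i => pure_factorial (w' i)))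
  choose d hd using h1
  refine ⟨univ.sup (fun s => univ.sup (fun s' => d s s')), fun n n' h => ?_⟩
  have hf : ∀ m : ℕ, (0 : ℤ) < (m.factorial : ℕ) := fun m => by exact_mod_cast m.factorial_pos
  set s : Fin k → Fin m.factorial := fun i => 
    ⟨(n i % (m.factorial : ℕ)).toNat, by
      have h2 := Int.emod_nonneg (n i) (hf m).ne'
      have h3 := Int.emod_lt_of_pos (n i) (hf m)
      omega⟩ with hs
  set s' : Fin k' → Fin m'.factorial := fun i => 
    ⟨(n' i % (m'.factorial : ℕ)).toNat, by
      have h2 := Int.emod_nonneg (n' i) (hf m').ne'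
      have h3 := Int.emod_lt_of_pos (n' i) (hf m')
      omega⟩ with hs'
  have e1 : n = fun i => ((m.factorial : ℕ) : ℤ) * (n i / (m.factorial : ℕ)) + ((s i : ℕ) : ℤ) := by
    funext i
    simp only [hs]
    rw [Int.toNat_of_nonneg (Int.emod_nonneg (n i) (hf m).ne'), Int.mul_ediv_add_emod]
  have e2 : n' = fun i => ((m'.factorial : ℕ) : ℤ) * (n' i / (m'.factorial : ℕ)) + ((s' i : ℕ) : ℤ) := by
    funext i
    simp only [hs']
    rw [Int.toNat_of_nonneg (Int.emod_nonneg (n' i) (hf m').ne'), Int.mul_ediv_add_emod]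
  have h2 := hd s s' (fun i => n i / (m.factorial : ℕ)) (fun i => n' i / (m'.factorial : ℕ)) (by
    intro j hj
    rw [← e1, ← e2]
    apply h j
    refine hj.trans ?_
    refine le_trans ?_ (Finset.le_sup (f := fun s => univ.sup (fun s' => d s s')) (Finset.mem_univ s))
    exact Finset.le_sup (f := fun s' => d s s') (Finset.mem_univ s'))
  rw [← e1, ← e2] at h2
  exact h2

theorem separated_of_moment {d j : ℕ} (hj : j ≤ d) {X Y : Dia} 
    (h : moment j X.D.fPoly ≠ moment j Y.D.fPoly) : Separated d X Y := 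
  ⟨j, hj, fun X => moment j X.D.fPoly, isVassiliev_moment j, h⟩

theorem uniform_pairs {m k m' k' : ℕ} (hm : 0 < m) (hm' : 0 < m') (O : Outer m) 
    (w v : Fin k → List (Letter m)) (O' : Outer m') (w' v' : Fin k' → List (Letter m')) : 
    ∃ d : ℕ, ∀ (n : Fin k → ℤ) (n' : Fin k' → ℤ), 
      (dia O (multiW w v n)).fPoly ≠ (dia O' (multiW w' v' n')).fPoly → 
        Separated d (DD O (multiW w v n)) (DD O' (multiW w' v' n')) := by
  obtain ⟨d, hd⟩ := uniform hm hm' O w v O' w' v'
  refine ⟨d, fun n n' hne => ?_⟩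
  by_contra hs
  apply hne
  apply hd
  intro j hj
  by_contra hc
  exact hs (separated_of_moment hj hc)

theorem uniform_unknot {m k : ℕ} (hm : 0 < m) (O : Outer m) (w v : Fin k → List (Letter m)) :
    ∃ d : ℕ, ∀ (n : Fin k → ℤ), (dia O (multiW w v n)).fPoly ≠ 1 → 
      Separated d (DD O (multiW w v n)) unknot := by
  have h1 := fun (s : Fin k → Fin m.factorial) => 
    (tame_class hm O w v (fun i => ((s i : ℕ) : ℤ)) _ (fun i => pure_factorial (w i))).order (k' := 0) (f' := fun _ => 1) 
      (fun i => i.elim0)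
  choose d hd using h1
  refine ⟨univ.sup d, fun n hne => ?_⟩
  have hf : ∀ m : ℕ, (0 : ℤ) < (m.factorial : ℕ) := fun m => by exact_mod_cast m.factorial_pos
  set s : Fin k → Fin m.factorial := fun i => 
    ⟨(n i % (m.factorial : ℕ)).toNat, by
      have h2 := Int.emod_nonneg (n i) (hf m).ne'
      have h3 := Int.emod_lt_of_pos (n i) (hf m)
      omega⟩ with hs
  have e1 : n = fun i => ((m.factorial : ℕ) : ℤ) * (n i / (m.factorial : ℕ)) + ((s i : ℕ) : ℤ) := by
    funext i
    simp only [hs]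
    rw [Int.toNat_of_nonneg (Int.emod_nonneg (n i) (hf m).ne'), Int.mul_ediv_add_emod]
  by_contra hsep
  apply hne
  have h2 := hd s (fun i => n i / (m.factorial : ℕ)) 0 (by
    intro j hj
    rw [← e1]
    by_contra hc
    refine hsep (separated_of_moment (hj.trans (Finset.le_sup (Finset.mem_univ s))) (j := j) ?_)
    rw [fPoly_unknot]
    exact hc)
  rw [← e1] at h2
  exact h2

end Pool.Agent.N571.TLF
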