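import Pool.Agent.Y463.SK.TLSpan

/-!
# The filtration of the Temperley–Lieb algebra by the number of through strands

`uu e k = e_0 e_2 ⋯ e_{2k-2}`, `JJ e k` is the two-sided ideal generated by it, and `In m e k 0 0` are the
sorted products `(e_{b_0} ⋯ e_0) (e_{b_1} ⋯ e_2) ⋯ (e_{b_{k-1}} ⋯ e_{2k-2})`, `b_0 < b_1 < ⋯`, `b_j ≥ 2j`
(the half diagrams with `k` cups).  The span of the latter is a left ideal modulo `JJ e (k+1)`.
-/

set_option autoImplicit false

namespace Pool.Agent.N571.TLF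

open Pool.Agent.Y463.SK

section
variable {R B : Type*} [CommRing R] [Ring B] [Algebra R B] {m : ℕ} {d : R} {e : ℕ → B}

theorem dp_add (e : ℕ → B) (r k : ℕ) : ∀ l, dp e r (k + l) = dp e r k * dp e (r - k) l
  | 0 => by simp [dp]
  | (l+1) => by
    rw [← Nat.add_assoc, dp, dp_add e r k l, dp, mul_assoc, Nat.sub_sub]

theorem dp_one (e : ℕ → B) (r : ℕ) : dp e r 1 = e r := by simp [dp]

theorem dp_head (e : ℕ → B) (r l : ℕ) : dp e r (l + 1) = e r * dp e (r - 1) l := by
  rw [Nat.add_comm, dp_add, dp_one]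

/-- sorted products -/
inductive In (m : ℕ) (e : ℕ → B) : ℕ → ℕ → ℕ → B → Prop
  | nil (j c : ℕ) : In m e 0 j c 1
  | cons (n j c b : ℕ) (x : B) (hc : c ≤ b) (hj : 2 * j ≤ b) (hb : b + 1 < m)
      (hx : In m e n (j+1) (b+1) x) : In m e (n+1) j c (dp e b (b + 1 - 2*j) * x)

theorem In.mono {n j c c' : ℕ} {x : B} (h : In m e n j c x) (hc : c' ≤ c) : In m e n j c' x := by
  cases h with
  | nil => exact In.nil _ _
  | cons n j c b x h1 h2 h3 h4 => exact In.cons _ _ _ _ _ (by omega) h2 h3 h4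

theorem In.raise {n j c : ℕ} {x : B} (h : In m e n j c x) : In m e n j (max c (2*j)) x := by
  cases h with
  | nil => exact In.nil _ _
  | cons n j c b x h1 h2 h3 h4 => exact In.cons _ _ _ _ _ (by omega) h2 h3 h4

theorem dp_swap (h : IsTLr m d e) {j b b' : ℕ} (h1 : 2 * j + 2 ≤ b') (h2 : b' ≤ b) (h3 : b + 1 < m) :
    dp e b (b + 1 - 2*j) * dp e b' (b' + 1 - 2*(j+1)) =
      dp e (b' - 2) (b' - 2 + 1 - 2*j) * dp e b (b + 1 - 2*(j+1)) := by
  have e1 : b' + 1 - 2*(j+1) = (b' - 2 * j - 2) + 1 := by omega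
  have e2 : b' + (b + 1 - 2*j) - (b + 2) = b' - 2 + 1 - 2*j := by omega
  have e3 : b - (b + 1 - b') = b' - 1 := by omega
  have e4 : b + 1 - 2*(j+1) = (b + 1 - b') + (b' - 2 * j - 2) := by omega
  rw [e1, dp_head, ← mul_assoc, dp_high' h h3 h2 (b + 1 - 2*j) (by omega) (by omega), e2, e4, dp_add,
    e3, mul_assoc]

theorem In.ins (h : IsTLr m d e) : ∀ (n j c b : ℕ) (x : B), In m e n (j+1) c x → 2*j+2 ≤ c →
    2*j ≤ b → b + 1 < m → In m e (n+1) j (min b (c-2)) (dp e b (b + 1 - 2*j) * x) := by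
  intro n
  induction n with
  | zero =>
    intro j c b x hx hc hj hb
    cases hx
    exact In.cons _ _ _ _ _ (min_le_left _ _) hj hb (In.nil _ _)
  | succ n ih =>
    intro j c b x hx hc hj hb
    cases hx with
    | cons n j c b' x h1 h2 h3 h4 =>
      rcases Nat.lt_or_ge b b' with h5 | h5
      · refine In.cons _ _ _ _ _ (min_le_left _ _) hj hb ?_
        exact In.cons _ _ _ _ _ (by omega) h2 h3 h4
      · rw [← mul_assoc, dp_swap h (by omega) h5 hb, mul_assoc]
        refine In.cons _ _ _ _ _ ?_ (by omega) (by omega) ?_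
        · omega
        · have := ih (j+1) (max (b'+1) (2*(j+1+1))) b x h4.raise (by omega) (by omega) hb
          exact this.mono (by omega)

theorem In.ins' (h : IsTLr m d e) {n j c b : ℕ} {x : B} (hx : In m e n (j+1) c x)
    (hj : 2*j ≤ b) (hb : b + 1 < m) : In m e (n+1) j 0 (dp e b (b + 1 - 2*j) * x) :=
  (In.ins h n j _ b x hx.raise (by omega) hj hb).mono (Nat.zero_le _)

/-- `e_0 e_2 ⋯ e_{2k-2}` -/
def uu (e : ℕ → B) : ℕ → B
  | 0 => 1
  | (k+1) => uu e k * e (2*k)

theorem uu_comm (h : IsTLr m d e) {i : ℕ} (hi : i + 1 < m) : ∀ j, 2*j ≤ i → Commute (uu e j) (e i)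
  | 0, _ => Commute.one_left _
  | (j+1), hj => (uu_comm h hi j (by omega)).mul_left (h.far (2*j) i hi (by omega))

variable (R) in
/-- the two-sided ideal generated by `uu e k` -/
def JJ (e : ℕ → B) (k : ℕ) : Submodule R B := Submodule.span R {x | ∃ s t : B, x = s * uu e k * t}

theorem JJ_left {k : ℕ} {x : B} (hx : x ∈ JJ R e k) (y : B) : y * x ∈ JJ R e k := by
  unfold JJ at hx ⊢
  induction hx using Submodule.span_induction with
  | mem x hx =>
    obtain ⟨s, t, rfl⟩ := hx
    exact Submodule.subset_span ⟨y * s, t, by simp only [mul_assoc]⟩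
  | zero => rw [mul_zero]; exact Submodule.zero_mem _
  | add a b _ _ ha hb => rw [mul_add]; exact Submodule.add_mem _ ha hb
  | smul r a _ ha => rw [mul_smul_comm]; exact Submodule.smul_mem _ _ ha

theorem JJ_right {k : ℕ} {x : B} (hx : x ∈ JJ R e k) (y : B) : x * y ∈ JJ R e k := by
  unfold JJ at hx ⊢
  induction hx using Submodule.span_induction with
  | mem x hx =>
    obtain ⟨s, t, rfl⟩ := hx
    exact Submodule.subset_span ⟨s, t * y, by simp only [mul_assoc]⟩
  | zero => rw [zero_mul]; exact Submodule.zero_mem _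
  | add a b _ _ ha hb => rw [add_mul]; exact Submodule.add_mem _ ha hb
  | smul r a _ ha => rw [smul_mul_assoc]; exact Submodule.smul_mem _ _ ha

theorem uu_mem_JJ (k : ℕ) : uu e k ∈ JJ R e k := Submodule.subset_span ⟨1, 1, by simp⟩

variable (R) in
/-- the elements `y` with `uu e j * y` in the ideal `JJ e (k+1)` -/
def NN (e : ℕ → B) (k j : ℕ) : Submodule R B := (JJ R e (k+1)).comap (LinearMap.mulLeft R (uu e j))

theorem mem_NN {k j : ℕ} {y : B} : y ∈ NN R e k j ↔ uu e j * y ∈ JJ R e (k+1) := Iff.rfl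

theorem NN_left (h : IsTLr m d e) {k j i : ℕ} {y : B} (hy : y ∈ NN R e k j) (hj : 2*j ≤ i)
    (hi : i + 1 < m) : e i * y ∈ NN R e k j := by
  rw [mem_NN] at hy ⊢
  rw [← mul_assoc, (uu_comm h hi j hj).eq, mul_assoc]
  exact JJ_left hy _

theorem NN_dp (h : IsTLr m d e) {k j b : ℕ} {y : B} (hy : y ∈ NN R e k (j+1)) (hj : 2*j ≤ b)
    (hb : b + 1 < m) : dp e b (b + 1 - 2*j) * y ∈ NN R e k j := by
  rw [mem_NN] at hy ⊢
  have e1 : b + 1 - 2*j = (b - 2*j) + 1 := by omega
  have e2 : b - (b - 2*j) = 2*j := by omega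
  have hc : Commute (uu e j) (dp e b (b - 2*j)) :=
    comm_dp _ (by omega) (fun l h1 h2 => uu_comm h (by omega) j (by omega))
  have e3 : uu e j * (dp e b (b + 1 - 2*j) * y) = dp e b (b - 2*j) * (uu e (j+1) * y) := by
    rw [e1, dp, e2, uu]
    simp only [← mul_assoc]
    rw [hc.eq]
  rw [e3]
  exact JJ_left hy _

theorem uu_mul_mem (h : IsTLr m d e) (k : ℕ) : ∀ l, 2*k + l + 1 < m → 
    uu e k * e (2*k + l) ∈ JJ R e (k+1)
  | 0, _ => uu_mem_JJ (k+1)
  | (l+1), hl => by
    have h1 := uu_mul_mem h k l (by omega)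
    have h2 : e (2*k + l + 1) = e (2*k + l + 1) * e (2*k + l) * e (2*k + l + 1) := 
      (h.down (2*k+l) (by omega)).symm
    have h3 : uu e k * e (2*k + (l+1)) = e (2*k + l + 1) * (uu e k * e (2*k + l)) * e (2*k + l + 1) := by
      have h4 := (uu_comm h (i := 2*k + l + 1) (by omega) k (by omega)).eq
      calc uu e k * e (2*k + (l+1)) = uu e k * (e (2*k + l + 1) * e (2*k + l) * e (2*k + l + 1)) := by
            rw [← h2]; rfl
        _ = (uu e k * e (2*k + l + 1)) * e (2*k + l) * e (2*k + l + 1) := by simp only [mul_assoc]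
        _ = _ := by rw [h4]; simp only [mul_assoc]
    rw [h3]
    exact JJ_right (JJ_left h1 _) _

variable (R) in
/-- the span of the sorted products and `NN` -/
def WW (m : ℕ) (e : ℕ → B) (k n j : ℕ) : Submodule R B := 
  Submodule.span R {y | In m e n j 0 y} ⊔ NN R e k j

theorem WW_dp (h : IsTLr m d e) {k n j b : ℕ} {y : B} (hy : y ∈ WW R m e k n (j+1)) (hj : 2*j ≤ b)
    (hb : b + 1 < m) : dp e b (b + 1 - 2*j) * y ∈ WW R m e k (n+1) j := by
  obtain ⟨y1, h1, y2, h2, rfl⟩ := Submodule.mem_sup.1 hy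
  rw [mul_add]
  refine Submodule.add_mem_sup ?_ (NN_dp h h2 hj hb)
  induction h1 using Submodule.span_induction with
  | mem x hx => exact Submodule.subset_span (In.ins' h hx hj hb)
  | zero => rw [mul_zero]; exact Submodule.zero_mem _
  | add a b _ _ ha hb => 
    rw [mul_add]
    exact Submodule.add_mem _ (ha (Submodule.add_mem_sup (by assumption) h2)) 
      (hb (Submodule.add_mem_sup (by assumption) h2))
  | smul r a _ ha => 
    rw [mul_smul_comm]
    exact Submodule.smul_mem _ _ (ha (Submodule.add_mem_sup (by assumption) h2))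

end

end Pool.Agent.N571.TLF
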